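import Pool.Agent.H578R2.ANN.Game
import Pool.Agent.H623R2.PS.Defs

/-!
# Pomax games
-/

set_option autoImplicit false

namespace Pool.Agent.NPC.Q328.PX

open Pool.Agent.NPC.ANN (Forces)

/-- A coloured poset with the elements `0, ..., n - 1`: `lt x y` says that `x < y`, and `white x`
that `x` is white (otherwise it is black). -/
structure CPoset (n : ℕ) where
  /-- the colours -/
  white : Fin n → Bool
  /-- the strict order -/
  lt : Fin n → Fin n → Bool
  irrefl : ∀ x, lt x x = false
  trans : ∀ x y z, lt x y = true → lt y z = true → lt x z = true

variable {n : ℕ}

/-- There is no chain `x < y < z`. -/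
def CPoset.HeightTwo (P : CPoset n) : Prop := ∀ x y z, ¬ (P.lt x y = true ∧ P.lt y z = true)

/-- A move of the pomax game.  A position is the player to move (`true`: White) and the set of the
remaining elements.  The player to move deletes an element of the own colour which is maximal among
the remaining elements. -/
def CPoset.Move (P : CPoset n) (s s' : Bool × Finset (Fin n)) : Prop :=
  ∃ x ∈ s.2, P.white x = s.1 ∧ (∀ y ∈ s.2, P.lt x y = false) ∧ s' = (!s.1, s.2.erase x)

/-- White can force a win if White moves first. -/
def CPoset.WhiteFirst (P : CPoset n) : Prop := Forces P.Move true (true, Finset.univ)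

/-- Black can force a win if Black moves first. -/
def CPoset.BlackFirst (P : CPoset n) : Prop := Forces P.Move true (false, Finset.univ)

/-- The game equals `0`: the second player can force a win, whoever moves first. -/
def CPoset.EqZero (P : CPoset n) : Prop :=
  Forces P.Move false (true, Finset.univ) ∧ Forces P.Move false (false, Finset.univ)

/-- The description of a coloured poset: the list of the colours (`true`: white), and the matrix of
the strict order. -/
def CPoset.code (P : CPoset n) : List Bool × List (List Bool) :=
  (List.ofFn P.white, List.ofFn fun x => List.ofFn fun y => P.lt x y)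

/-- The decision problem of a property of coloured posets, for coloured posets of height at most
two. -/
def HeightTwoProblem (W : ∀ n, CPoset n → Prop) (A : List Bool × List (List Bool)) : Prop :=
  ∃ (n : ℕ) (P : CPoset n), A = P.code ∧ P.HeightTwo ∧ W n P

end Pool.Agent.NPC.Q328.PX
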