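import Pool.Agent.H656R2.AK.AKIn
import Pool.Agent.Q328.PX.Defs

/-!
# Pomax games can be solved in polynomial space
-/

set_option autoImplicit false

namespace Pool.Agent.NPC.Q328.PX

open Pool.Agent.NPC Pool.Agent.H623R2.PS
open Pool.Agent.NPC.ANN (Forces)
open Pool.Agent.H656R2.AK (W mvL W_bisim_iff inPSPACE_of_game ent sz_filter_le' mem_prod poly_ent
  WL_iff)

/-! ## Codes -/

theorem code_len {n : ℕ} (P : CPoset n) : P.code.1.length = n := by simp [CPoset.code]

theorem ent_code {n : ℕ} (P : CPoset n) (i j : Fin n) : ent P.code.2 i j = P.lt i j := by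
  simp [ent, CPoset.code, List.getD_eq_getElem?_getD]

theorem col_code {n : ℕ} (P : CPoset n) (i : Fin n) : P.code.1.getD i false = P.white i := by
  simp [CPoset.code, List.getD_eq_getElem?_getD]

theorem CPoset.ext' {n : ℕ} {P P' : CPoset n} (h1 : ∀ i, P.white i = P'.white i)
    (h2 : ∀ i j, P.lt i j = P'.lt i j) : P = P' := by
  obtain ⟨w, l, _, _⟩ := P
  obtain ⟨w', l', _, _⟩ := P'
  have e1 : w = w' := funext h1
  have e2 : l = l' := funext fun i => funext fun j => h2 i j
  subst e1
  subst e2
  rfl

/-- the code determines the poset -/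
theorem code_inj {W : ∀ n, CPoset n → Prop} {n m : ℕ} {P : CPoset n} {P' : CPoset m}
    (h : P.code = P'.code) : W n P ↔ W m P' := by
  have e : n = m := by rw [← code_len P, h, code_len P']
  subst e
  have e2 : P = P' := CPoset.ext' (fun i => by rw [← col_code, h, col_code])
    fun i j => by rw [← ent_code, h, ent_code]
  rw [e2]

theorem htp_code {W : ∀ n, CPoset n → Prop} {n : ℕ} {P : CPoset n} (hP : P.HeightTwo) :
    HeightTwoProblem W P.code ↔ W n P := by
  constructor
  · rintro ⟨m, P', h, -, h'⟩
    exact (code_inj h).2 h'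
  · intro h
    exact ⟨n, P, rfl, hP, h⟩

/-- the test for codes of posets of height two -/
def validP (A : List Bool × List (List Bool)) : Bool :=
  decide (A.2.length = A.1.length) && ((A.2.all fun r => decide (r.length = A.1.length)) &&
    (List.range A.1.length).all fun i => (List.range A.1.length).all fun j =>
      (List.range A.1.length).all fun k => !(ent A.2 i j && ent A.2 j k))

theorem validP_iff {A : List Bool × List (List Bool)} : validP A = true ↔
    A.2.length = A.1.length ∧ (∀ r ∈ A.2, r.length = A.1.length) ∧ ∀ i < A.1.length,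
      ∀ j < A.1.length, ∀ k < A.1.length, ¬ (ent A.2 i j = true ∧ ent A.2 j k = true) := by
  unfold validP
  rw [Bool.and_eq_true, Bool.and_eq_true, decide_eq_true_eq, List.all_eq_true, List.all_eq_true]
  simp only [List.mem_range, List.all_eq_true, decide_eq_true_eq, Bool.not_eq_true',
    Bool.and_eq_false_iff, not_and_or, Bool.not_eq_true]

theorem validP_code {n : ℕ} {P : CPoset n} (hP : P.HeightTwo) : validP P.code = true := by
  rw [validP_iff, code_len]
  refine ⟨by simp [CPoset.code], ?_, ?_⟩
  · intro r hr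
    unfold CPoset.code at hr
    simp only [List.mem_ofFn] at hr
    obtain ⟨i, rfl⟩ := hr
    simp
  · intro i hi j hj k hk
    rw [ent_code P ⟨i, hi⟩ ⟨j, hj⟩, ent_code P ⟨j, hj⟩ ⟨k, hk⟩]
    exact hP _ _ _

theorem exists_of_validP {A : List Bool × List (List Bool)} (h : validP A = true) :
    ∃ P : CPoset A.1.length, A = P.code ∧ P.HeightTwo := by
  rw [validP_iff] at h
  obtain ⟨h1, h2, h3⟩ := h
  refine ⟨⟨fun i => A.1.getD i false, fun i j => ent A.2 i j, ?_, ?_⟩, ?_, ?_⟩
  · intro x
    have := h3 x x.isLt x x.isLt x x.isLt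
    simpa using this
  · intro x y z hxy hyz
    exact absurd ⟨hxy, hyz⟩ (h3 x x.isLt y y.isLt z z.isLt)
  · obtain ⟨C, M⟩ := A
    simp only at h1 h2 h3
    unfold CPoset.code
    refine Prod.ext ?_ ?_
    · simp only
      apply List.ext_getElem
      · simp
      · intro i hi hi'
        rw [List.getElem_ofFn]
        simp only [List.getD_eq_getElem?_getD, List.getElem?_eq_getElem hi, Option.getD_some]
    · simp only
      apply List.ext_getElem
      · simp [h1]
      · intro i hi hi'
        rw [List.getElem_ofFn]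
        apply List.ext_getElem
        · rw [List.length_ofFn, h2 _ (List.getElem_mem hi)]
        · intro j h3 h4
          rw [List.getElem_ofFn]
          simp only [ent, List.getD_eq_getElem?_getD, List.getElem?_eq_getElem hi,
            Option.getD_some, List.getElem?_eq_getElem h3]
  · rintro x y z hh
    exact h3 x x.isLt y y.isLt z z.isLt hh

/-! ## The game on lists -/

/-- Positions: the list of the remaining preliminary moves, the player to move, the code, and the
list of the remaining elements. -/
abbrev PB : Type := List Bool × (Bool × ((List Bool × List (List Bool)) × List ℕ))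

/-- the test for moves -/
def canM (p : PB × ℕ) : Bool :=
  decide (p.1.2.2.1.1.getD p.2 false = p.1.2.1) && p.1.2.2.2.all fun y => !ent p.1.2.2.1.2 p.2 y

/-- the position after a move -/
def afterM (p : PB × ℕ) : PB :=
  ([], !p.1.2.1, p.1.2.2.1, p.1.2.2.2.filter fun y => !decide (y = p.2))

/-- the moves -/
def pmv (b : PB) : List PB :=
  if b.1.length = 0 then (b.2.2.2.filter fun x => canM (b, x)).map fun x => afterM (b, x)
  else if b.1.length = 2 then [(b.1.tail, true, b.2.2), (b.1.tail, false, b.2.2)]
  else [(b.1.tail, b.2)]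

theorem poly_canM : NPC.Poly canM := by
  have h2 : NPC.Poly (fun p : PB × ℕ => p.1.2.2.2.all fun y => !ent p.1.2.2.1.2 p.2 y) :=
    NPC.Poly.all (l := fun p : PB × ℕ => p.1.2.2.2) (p := fun p y => !ent p.1.2.2.1.2 p.2 y)
      (by fun_prop) (by fun_prop)
  have h3 : NPC.Poly (fun p : PB × ℕ => p.1.2.2.1.1.getD p.2 false) :=
    NPC.Poly.getD (by fun_prop) (by fun_prop) (by fun_prop)
  exact NPC.Poly.and (by fun_prop) h2

theorem poly_afterM : NPC.Poly afterM := by
  have h2 : NPC.Poly (fun p : PB × ℕ => p.1.2.2.2.filter fun y => !decide (y = p.2)) :=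
    NPC.Poly.filter (l := fun p : PB × ℕ => p.1.2.2.2) (p := fun p y => !decide (y = p.2))
      (by fun_prop) (by fun_prop)
  unfold afterM
  fun_prop

theorem poly_pmv : NPC.Poly pmv := by
  have h1 : NPC.Poly (fun b : PB => b.2.2.2.filter fun x => canM (b, x)) :=
    NPC.Poly.filter (l := fun b : PB => b.2.2.2) (p := fun b x => canM (b, x)) (by fun_prop)
      poly_canM
  have h2 : NPC.Poly (fun b : PB => (b.2.2.2.filter fun x => canM (b, x)).map
      fun x => afterM (b, x)) :=
    NPC.Poly.map (F := fun (b : PB) (x : ℕ) => afterM (b, x)) h1 poly_afterM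
  unfold pmv
  fun_prop

theorem poly_validP : NPC.Poly validP := by
  have h : UPoly (fun A : List Bool × List (List Bool) => A.1.length) := UPoly.length (by fun_prop)
  have h1 := h.range
  have h2 : NPC.Poly (fun A : List Bool × List (List Bool) =>
      A.2.all fun r => decide (r.length = A.1.length)) :=
    NPC.Poly.all (l := fun A : List Bool × List (List Bool) => A.2)
      (p := fun A r => decide (r.length = A.1.length)) (by fun_prop) (by fun_prop)
  have h3 : NPC.Poly (fun q : ((List Bool × List (List Bool)) × ℕ) × ℕ =>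
      (List.range q.1.1.1.length).all fun k => !(ent q.1.1.2 q.1.2 q.2 && ent q.1.1.2 q.2 k)) :=
    NPC.Poly.all (l := fun q : ((List Bool × List (List Bool)) × ℕ) × ℕ =>
      List.range q.1.1.1.length)
      (p := fun q k => !(ent q.1.1.2 q.1.2 q.2 && ent q.1.1.2 q.2 k))
      (h1.comp (NPC.Poly.fst (NPC.Poly.fst NPC.Poly.id))) (by fun_prop)
  have h4 : NPC.Poly (fun q : (List Bool × List (List Bool)) × ℕ =>
      (List.range q.1.1.length).all fun j => (List.range q.1.1.length).all
        fun k => !(ent q.1.2 q.2 j && ent q.1.2 j k)) :=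
    NPC.Poly.all (l := fun q : (List Bool × List (List Bool)) × ℕ => List.range q.1.1.length)
      (p := fun q j => (List.range q.1.1.length).all
        fun k => !(ent q.1.2 q.2 j && ent q.1.2 j k))
      (h1.comp (NPC.Poly.fst NPC.Poly.id)) h3
  have h5 : NPC.Poly (fun A : List Bool × List (List Bool) =>
      (List.range A.1.length).all fun i => (List.range A.1.length).all fun j =>
      (List.range A.1.length).all fun k => !(ent A.2 i j && ent A.2 j k)) :=
    NPC.Poly.all (l := fun A : List Bool × List (List Bool) => List.range A.1.length)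
      (p := fun A i => (List.range A.1.length).all fun j =>
        (List.range A.1.length).all fun k => !(ent A.2 i j && ent A.2 j k)) h1 h4
  exact NPC.Poly.and (by fun_prop) (h2.and h5)

theorem mem_pmv_nil {b b' : PB} (h : b.1 = []) : b' ∈ pmv b ↔ ∃ x ∈ b.2.2.2,
    (b.2.2.1.1.getD x false = b.2.1 ∧ ∀ y ∈ b.2.2.2, ent b.2.2.1.2 x y = false) ∧
    b' = ([], !b.2.1, b.2.2.1, b.2.2.2.filter fun y => !decide (y = x)) := by
  unfold pmv
  rw [if_pos (by rw [h]; rfl), List.mem_map]
  have hc : ∀ x, canM (b, x) = true ↔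
      (b.2.2.1.1.getD x false = b.2.1 ∧ ∀ y ∈ b.2.2.2, ent b.2.2.1.2 x y = false) := by
    intro x
    unfold canM
    rw [Bool.and_eq_true, decide_eq_true_eq, List.all_eq_true]
    simp only [Bool.not_eq_true']
  constructor
  · rintro ⟨x, hx, rfl⟩
    rw [List.mem_filter, hc] at hx
    exact ⟨x, hx.1, hx.2, rfl⟩
  · rintro ⟨x, hx, h2, rfl⟩
    exact ⟨x, List.mem_filter.2 ⟨hx, (hc x).2 h2⟩, rfl⟩

theorem filter_sz {l : List ℕ} {x : ℕ} (hx : x ∈ l) :
    sz (l.filter fun y => !decide (y = x)) + 2 ≤ sz l := by
  induction l with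
  | nil => simp at hx
  | cons a l ih =>
    rw [List.filter_cons]
    by_cases ha : a = x
    · rw [if_neg (by simp [ha]), sz_list_cons]
      have h1 := sz_filter_le' (fun y => !decide (y = x)) l
      have h2 := sz_pos a
      omega
    · rw [if_pos (by simp [ha]), sz_list_cons, sz_list_cons]
      have h1 := ih ((List.mem_cons.1 hx).resolve_left fun h => ha h.symm)
      omega

theorem filter_len {l : List ℕ} {x : ℕ} (hx : x ∈ l) :
    (l.filter fun y => !decide (y = x)).length < l.length := by
  rw [List.length_filter_lt_length_iff_exists]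
  exact ⟨x, hx, by simp⟩

/-- every move shrinks the position -/
theorem pmv_shrink {b b' : PB} (h : b' ∈ pmv b) : sz b' ≤ sz b ∧
    b'.1.length + b'.2.2.2.length < b.1.length + b.2.2.2.length ∧ b'.2.2.1 = b.2.2.1 := by
  obtain ⟨ph, t, A, S⟩ := b
  cases ph with
  | nil =>
    rw [mem_pmv_nil rfl] at h
    obtain ⟨x, hx, -, rfl⟩ := h
    simp only at hx
    have h1 := filter_sz hx
    have h2 := filter_len hx
    refine ⟨?_, ?_, rfl⟩
    · simp only [sz_pair]
      have h3 := sz_bool_le (!t)
      have h4 := sz_pos t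
      omega
    · simp only
      omega
  | cons c ph =>
    unfold pmv at h
    rw [if_neg (by simp)] at h
    have h4 := sz_pos t
    have h5 := sz_pos c
    split_ifs at h
    · simp only [List.tail_cons, List.mem_cons, List.not_mem_nil, or_false] at h
      rcases h with rfl | rfl
      · refine ⟨?_, ?_, rfl⟩
        · simp only [sz_pair, sz_list_cons, sz_true]
          omega
        · simp only [List.length_cons]
          omega
      · refine ⟨?_, ?_, rfl⟩
        · simp only [sz_pair, sz_list_cons, sz_false]
          omega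
        · simp only [List.length_cons]
          omega
    · simp only [List.tail_cons, List.mem_cons, List.not_mem_nil, or_false] at h
      subst h
      refine ⟨?_, ?_, rfl⟩
      · simp only [sz_pair, sz_list_cons]
        omega
      · simp only [List.length_cons]
        omega

theorem pmv_length (b : PB) : (pmv b).length ≤ b.2.2.2.length + 2 := by
  unfold pmv
  split_ifs
  · rw [List.length_map]
    exact (List.length_filter_le _ _).trans (by omega)
  · simp
  · simp

theorem wl (b : PB) : W (mvL pmv) b ↔ ∃ b' ∈ pmv b, ¬ W (mvL pmv) b' :=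
  WL_iff (moves := pmv) (I := fun _ => True)
    (rank := fun b : PB => b.1.length + b.2.2.2.length)
    (fun _ _ _ h => ⟨trivial, (pmv_shrink h).2.1⟩) trivial

theorem W_one (c t : Bool) (B : (List Bool × List (List Bool)) × List ℕ) :
    W (mvL pmv) ([c], t, B) ↔ ¬ W (mvL pmv) ([], t, B) := by
  rw [wl]
  have h : pmv ([c], t, B) = [([], t, B)] := rfl
  rw [h]
  simp

theorem W_two (c d t : Bool) (B : (List Bool × List (List Bool)) × List ℕ) :
    W (mvL pmv) ([c, d], t, B) ↔ (W (mvL pmv) ([], true, B) ∨ W (mvL pmv) ([], false, B)) := by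
  rw [wl]
  have h : pmv ([c, d], t, B) = [([d], true, B), ([d], false, B)] := rfl
  rw [h]
  simp [W_one]

theorem W_three (c d e t : Bool) (B : (List Bool × List (List Bool)) × List ℕ) :
    W (mvL pmv) ([c, d, e], t, B) ↔
      (¬ W (mvL pmv) ([], true, B) ∧ ¬ W (mvL pmv) ([], false, B)) := by
  rw [wl]
  have h : pmv ([c, d, e], t, B) = [([d, e], t, B)] := rfl
  rw [h]
  simp [W_two]

/-! ## The game on the poset -/

theorem W_of_forces {α : Type} {mv : α → α → Prop} {b : Bool} {s : α} (h : Forces mv b s) :
    (b = true → W mv s) ∧ (b = false → ∀ q, mv s q → W mv q) := by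
  induction h with
  | win h _ ih =>
    exact ⟨fun _ => W.mk _ _ h (ih.2 rfl), fun h => absurd h (by decide)⟩
  | lose _ ih =>
    exact ⟨fun h => absurd h (by decide), fun _ q hq => (ih q hq).1 rfl⟩

theorem forces_of_W {α : Type} {mv : α → α → Prop} {s : α} (h : W mv s) : Forces mv true s := by
  induction h with
  | mk a b h _ ih => exact .win h (.lose ih)

theorem W_forces {α : Type} {mv : α → α → Prop} {s : α} : W mv s ↔ Forces mv true s :=
  ⟨forces_of_W, fun h => (W_of_forces h).1 rfl⟩

theorem forces_or {n : ℕ} (P : CPoset n) (k : ℕ) : ∀ s : Bool × Finset (Fin n), s.2.card = k →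
    Forces P.Move true s ∨ Forces P.Move false s := by
  induction k using Nat.strong_induction_on with
  | _ k ih =>
    intro s hs
    by_cases h : ∃ q, P.Move s q ∧ Forces P.Move false q
    · obtain ⟨q, h1, h2⟩ := h
      exact Or.inl (.win h1 h2)
    · refine Or.inr (.lose fun q hq => ?_)
      push Not at h
      have hc : q.2.card < k := by
        obtain ⟨x, hx, -, -, rfl⟩ := hq
        simp only
        rw [Finset.card_erase_of_mem hx, hs]
        have : 0 < s.2.card := Finset.card_pos.mpr ⟨x, hx⟩
        omega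
      exact (ih _ hc q rfl).resolve_right (h q hq)

theorem forces_false_iff {n : ℕ} (P : CPoset n) (s : Bool × Finset (Fin n)) :
    Forces P.Move false s ↔ ¬ Forces P.Move true s :=
  ⟨fun h => h.not_both, fun h => (forces_or P _ s rfl).resolve_left h⟩

/-- the relation between positions on lists and positions -/
def RlP {n : ℕ} (P : CPoset n) (b : PB) (s : Bool × Finset (Fin n)) : Prop :=
  b.1 = [] ∧ b.2.1 = s.1 ∧ b.2.2.1 = P.code ∧ (∀ i : Fin n, i.val ∈ b.2.2.2 ↔ i ∈ s.2) ∧
    ∀ x ∈ b.2.2.2, x < n

theorem W_pmv {n : ℕ} (P : CPoset n) (t : Bool) :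
    W (mvL pmv) ([], t, P.code, List.range n) ↔ Forces P.Move true (t, Finset.univ) := by
  rw [← W_forces]
  refine W_bisim_iff (RlP P) ?_ ?_ ⟨rfl, rfl, rfl, by simp, by simp⟩
  · rintro ⟨ph, t, A, S⟩ ⟨t', T⟩ b' ⟨h1, h2, h3, h4, h5⟩ hm
    simp only at h1 h2 h3 h4 h5
    subst h1
    subst h2
    subst h3
    rw [mvL, mem_pmv_nil rfl] at hm
    obtain ⟨x, hx, ⟨hcol, hmax⟩, rfl⟩ := hm
    simp only at hx hcol hmax
    refine ⟨(!t, T.erase ⟨x, h5 x hx⟩), ⟨⟨x, h5 x hx⟩, (h4 _).1 hx, ?_, ?_, rfl⟩, rfl, rfl, rfl,
      ?_, ?_⟩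
    · exact (col_code P ⟨x, h5 x hx⟩).symm.trans hcol
    · intro y hy
      exact (ent_code P ⟨x, h5 x hx⟩ y).symm.trans (hmax y ((h4 y).2 hy))
    · intro i
      simp only [List.mem_filter, h4 i, Finset.mem_erase, Bool.not_eq_true',
        decide_eq_false_iff_not, ne_eq, Fin.ext_iff]
      tauto
    · intro y hy
      exact h5 y (List.mem_filter.1 hy).1
  · rintro ⟨ph, t, A, S⟩ ⟨t', T⟩ s' ⟨h1, h2, h3, h4, h5⟩ hm
    simp only at h1 h2 h3 h4 h5
    subst h1
    subst h2
    subst h3
    obtain ⟨x, hx, hcol, hmax, rfl⟩ := hm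
    simp only at hx hcol hmax
    refine ⟨([], !t, P.code, S.filter fun y => !decide (y = x.val)), ?_, rfl, rfl, rfl, ?_, ?_⟩
    · rw [mvL, mem_pmv_nil rfl]
      refine ⟨x.val, (h4 x).2 hx, ⟨(col_code P x).trans hcol, ?_⟩, rfl⟩
      intro y hy
      exact (ent_code P x ⟨y, h5 y hy⟩).trans (hmax _ ((h4 _).1 hy))
    · intro i
      simp only [List.mem_filter, h4 i, Finset.mem_erase, Bool.not_eq_true',
        decide_eq_false_iff_not, ne_eq, Fin.ext_iff]
      tauto
    · intro y hy
      exact h5 y (List.mem_filter.1 hy).1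

/-! ## Membership -/

/-- the initial position -/
def pInit (ph : List Bool) (t : Bool) (x : List Bool) : PB :=
  (ph, t, (unbits (List Bool × List (List Bool)) x).getD ([], [[]]),
    List.range ((unbits (List Bool × List (List Bool)) x).getD ([], [[]])).1.length)

theorem mem_of (ph : List Bool) (t : Bool) {Wp : ∀ n, CPoset n → Prop}
    (h : ∀ n (P : CPoset n), Wp n P ↔ W (mvL pmv) (ph, t, P.code, List.range n)) :
    InPSPACE (lang (HeightTwoProblem Wp)) := by
  have hdec : NPC.Poly (fun x : List Bool =>
      (unbits (List Bool × List (List Bool)) x).getD ([], [[]])) :=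
    NPC.Poly.optGetD poly_unbits (NPC.Poly.const ([], [[]]))
  have hlen : UPoly (fun x : List Bool =>
      ((unbits (List Bool × List (List Bool)) x).getD ([], [[]])).1.length) :=
    UPoly.length (NPC.Poly.fst hdec)
  have hinit : NPC.Poly (pInit ph t) :=
    NPC.Poly.pair (NPC.Poly.const ph) (NPC.Poly.pair (NPC.Poly.const t)
      (NPC.Poly.pair hdec hlen.range))
  refine inPSPACE_of_game hinit (good := fun b => validP b.2.2.1)
    (poly_validP.comp (NPC.Poly.fst (NPC.Poly.snd (NPC.Poly.snd NPC.Poly.id)))) poly_pmv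
    (fun b b' hb' => (pmv_shrink hb').1)
    (w := fun x => ((unbits (List Bool × List (List Bool)) x).getD ([], [[]])).1.length +
      (ph.length + 3)) (hlen.add (UPoly.const _))
    (fun x b => b.1.length + b.2.2.2.length ≤
      ((unbits (List Bool × List (List Bool)) x).getD ([], [[]])).1.length + ph.length)
    (fun b => b.1.length + b.2.2.2.length) ?_ ?_ ?_ ?_
  · intro x
    unfold pInit
    simp only [List.length_range]
    omega
  · intro x b hb b' hb'
    have := (pmv_shrink hb').2.1
    exact ⟨by omega, this⟩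
  · intro x b hb
    have := pmv_length b
    exact ⟨by omega, by omega⟩
  · intro x
    rw [mem_lang_iff]
    have key : ∀ A : List Bool × List (List Bool), HeightTwoProblem Wp A ↔
        validP A = true ∧ W (mvL pmv) (ph, t, A, List.range A.1.length) := by
      intro A
      constructor
      · rintro ⟨n, P, rfl, h1, h2⟩
        refine ⟨validP_code h1, ?_⟩
        rw [code_len]
        exact (h n P).1 h2
      · rintro ⟨h1, h2⟩
        obtain ⟨P, hP, h3⟩ := exists_of_validP h1
        refine ⟨_, P, hP, h3, (h _ P).2 ?_⟩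
        rw [← hP]
        exact h2
    unfold pInit
    simp only
    constructor
    · rintro ⟨A, hA, h2⟩
      rw [hA, Option.getD_some]
      exact (key A).1 h2
    · intro h2
      cases hx : unbits (List Bool × List (List Bool)) x with
      | none =>
        rw [hx, Option.getD_none] at h2
        exact absurd h2.1 (by decide)
      | some A =>
        rw [hx, Option.getD_some] at h2
        exact ⟨A, rfl, (key A).2 h2⟩

theorem whiteFirst_mem : InPSPACE (lang (HeightTwoProblem fun _ P => P.WhiteFirst)) :=
  mem_of [] true fun _ P => (W_pmv P true).symm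

theorem blackFirst_mem : InPSPACE (lang (HeightTwoProblem fun _ P => P.BlackFirst)) :=
  mem_of [] false fun _ P => (W_pmv P false).symm

theorem eqZero_mem : InPSPACE (lang (HeightTwoProblem fun _ P => P.EqZero)) :=
  mem_of [true, true, true] true fun n P => by
    rw [W_three, W_pmv, W_pmv, ← forces_false_iff, ← forces_false_iff]
    rfl

end Pool.Agent.NPC.Q328.PX
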