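import Pool.Agent.Q328.PX.QBF

/-!
# The pair game of a formula, with an additional free move
-/

set_option autoImplicit false

namespace Pool.Agent.NPC.Q328.PX

open Finset
open Pool.Agent.H656R2.AK (QF QFwf evc)
open Pool.Agent.H623R2.PS (evq)
open Pool.Agent.NPC.ANN (Forces)

variable {Q : QF}

theorem rch_sm {h : List ℕ} (hr : Rch (dat Q) h) : h.length ≤ 2 * Q.1.length + 1 → sm h := by
  induction hr with
  | nil => exact fun _ i hi => absurd hi (by simp)
  | @snoc h b hh hs ih =>
    intro hl
    rw [List.length_append, List.length_singleton] at hl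
    exact sm_append (ih (by omega)) ((safe_small (by omega)).1 hs).1

theorem dat_cont (h : List ℕ) (hr : Rch (dat Q) h) (ho : own h.length = false)
    (hT : h.length < (dat Q).T) :
    (∃ b, safe (dat Q) h b) ∨ ∀ c, (dat Q).ok c → own c.1 = true → c.1 < h.length := by
  change h.length < 2 * Q.1.length + 3 at hT
  have hodd : h.length % 2 ≠ 0 := by
    intro h0
    unfold own at ho
    rw [h0] at ho
    exact absurd ho (by decide)
  have hsm : sm h := rch_sm hr (by omega)
  rcases Nat.lt_or_ge h.length (2 * Q.1.length + 1) with h1 | h1
  · obtain ⟨b, hb, -⟩ := safe_ex h1 hsm (v := 0) (by omega)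
    exact Or.inl ⟨b, hb⟩
  · have h2 : h.length = 2 * Q.1.length + 1 := by omega
    rcases Nat.eq_zero_or_pos Q.2.length with h0 | h0
    · right
      rintro c ⟨c1, c2, c3⟩ c4
      change c.1 < 2 * Q.1.length + 3 at c1
      change qval Q c.1 c.2 = true at c3
      by_contra hge
      have h3 : c.1 ≠ 2 * Q.1.length + 1 := by
        intro h4
        unfold own at c4
        rw [decide_eq_true_eq] at c4
        omega
      have h5 : Q.2 = [] := List.length_eq_zero_iff.mp h0
      unfold qval at c3
      rw [if_neg (by omega), if_neg h3, decide_eq_true_eq, h5] at c3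
      simp at c3
    · left
      have h3 := hsm (2 * Q.1.length) (by omega)
      exact ⟨h.getD (2 * Q.1.length) 0 / 2, (safe_kap h2).2 ⟨by omega, by omega⟩⟩

theorem one_true (hwf : QFwf Q) (hv : evq Q.1 (fun v => evc v Q.2) = true) :
    Forces (PMv (dat Q)) false (true, ∅, one) ∧ Forces (PMv (dat Q)) false (false, ∅, one) := by
  constructor
  · exact (not_more (dat_loc Q) (dat_att Q) dat_cont (2 * Q.1.length + 3) [] .nil (by
      show ([] : List ℕ).length + _ = 2 * Q.1.length + 3
      simp)).1 rfl
  · refine .lose fun s' hs' => ?_
    cases hs' with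
    | bot h0 =>
      have h1 := (game_iff hwf true).2 hv
      have h2 : Function.update one false (one false - 1) = fun _ => 0 := by
        funext Y
        cases Y <;> rfl
      rw [h2]
      exact h1
    | @top _ _ _ c hc ho hD =>
      have h1 : 0 < c.1 := by
        rcases Nat.eq_zero_or_pos c.1 with h | h
        · rw [h] at ho
          exact absurd ho (by decide)
        · exact h
      refine early (q := false) (h := []) (c := c) (dat_loc Q) (dat_att Q) h1
        (fun i hi => absurd hi (by simp)) hc ho ?_
      show one false + gain (dat Q) false c ∅ ≤ 1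
      unfold gain
      rw [Finset.sum_empty]
      decide

theorem one_false (hwf : QFwf Q) (hv : ¬ evq Q.1 (fun v => evc v Q.2) = true) :
    Forces (PMv (dat Q)) true (false, ∅, one) := by
  refine .win (PMv.bot (by decide)) ?_
  have h1 := (game_iff hwf false).2 (by simpa using hv)
  have h2 : Function.update one false (one false - 1) = fun _ => 0 := by
    funext Y
    cases Y <;> rfl
  rw [h2]
  exact h1

/-- The game with an additional free move of `false` is a win for the second player if and only if
the formula is true. -/
theorem one_iff (hwf : QFwf Q) :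
    (Forces (PMv (dat Q)) false (true, ∅, one) ∧ Forces (PMv (dat Q)) false (false, ∅, one)) ↔
      evq Q.1 (fun v => evc v Q.2) = true := by
  constructor
  · rintro ⟨-, h⟩
    by_contra hv
    exact h.not_both (one_false hwf hv)
  · exact one_true hwf

end Pool.Agent.NPC.Q328.PX
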