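import Pool.Agent.Q328.PX.Hard
import Pool.Agent.Q328.PX.Zero
import Pool.Agent.Q328.PX.Mem

/-!
# The reductions
-/

set_option autoImplicit false

namespace Pool.Agent.NPC.Q328.PX

open Pool.Agent.NPC Pool.Agent.H623R2.PS
open Pool.Agent.H656R2.AK (QF QFwf evc qbf_hard)
open Pool.Agent.NPC.ANN (Forces)

theorem T_pos (Q : QF) : 0 < (dat Q).T := by
  show 0 < 2 * Q.1.length + 3
  omega

theorem M_pos (Q : QF) : 0 < (dat Q).M := by
  show 0 < 4 + 2 * Q.2.length + 2 * Q.2.length * WW Q
  omega

theorem zero_fun : (fun Y : Bool => if Y = true then 0 else 0) = fun _ => (0 : ℕ) := by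
  funext Y
  cases Y <;> rfl

/-- a reduction from the truth of formulas -/
theorem hard_of {Wp : ∀ n, CPoset n → Prop} {ex : ℕ} {f : Bool → Bool}
    (h : ∀ Q : QF, QFwf Q → (Wp _ (posetOf (lab (dat Q) ex) f) ↔
      evq Q.1 (fun v => evc v Q.2) = true)) : PSPACEHard (lang (HeightTwoProblem Wp)) := by
  intro L hL
  obtain ⟨g, hg, hwf, hg'⟩ := qbf_hard hL
  refine ⟨fun x => bits (cde (lab (dat (g x)) ex) f), polyTime_bits ((poly_cde ex f).comp hg),
    fun x => ?_⟩
  rw [bits_mem_lang, ← posetOf_code, htp_code (posetOf_height _ _), h _ (hwf x), hg' x]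

theorem whiteFirst_hard : PSPACEHard (lang (HeightTwoProblem fun _ P => P.WhiteFirst)) := by
  refine hard_of (ex := 0) (f := fun b => b) fun Q hQ => ?_
  have h := poset_iff (I := dat Q) (ex := 0) (T_pos Q) (M_pos Q) (f := fun b => b)
    (fun _ => rfl) true true
  unfold CPoset.WhiteFirst
  rw [h, zero_fun, game_iff hQ]

theorem blackFirst_hard : PSPACEHard (lang (HeightTwoProblem fun _ P => P.BlackFirst)) := by
  refine hard_of (ex := 0) (f := fun b => !b) fun Q hQ => ?_
  have h := poset_iff (I := dat Q) (ex := 0) (T_pos Q) (M_pos Q) (f := fun b => !b)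
    (fun _ => rfl) true true
  unfold CPoset.BlackFirst
  rw [zero_fun, game_iff hQ] at h
  exact h

theorem eqZero_hard : PSPACEHard (lang (HeightTwoProblem fun _ P => P.EqZero)) := by
  refine hard_of (ex := 1) (f := fun b => b) fun Q hQ => ?_
  have h1 := poset_iff (I := dat Q) (ex := 1) (T_pos Q) (M_pos Q) (f := fun b => b)
    (fun _ => rfl) false true
  have h2 := poset_iff (I := dat Q) (ex := 1) (T_pos Q) (M_pos Q) (f := fun b => b)
    (fun _ => rfl) false false
  unfold CPoset.EqZero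
  rw [h1, h2]
  exact one_iff hQ

end Pool.Agent.NPC.Q328.PX
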