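import Pool.Agent.Q328.PX.Inst
import Pool.Agent.H656R2.AK.TQPoly

/-!
# Pomax games on posets of height two are hard for polynomial space
-/

set_option autoImplicit false

namespace Pool.Agent.NPC.Q328.PX

open Finset
open Pool.Agent.NPC Pool.Agent.H623R2.PS
open Pool.Agent.H656R2.AK (QF QFwf evc qbf_hard)
open Pool.Agent.NPC.ANN (Forces)

theorem poly_qval : NPC.Poly (fun p : QF × (ℕ × ℕ) => qval p.1 p.2.1 p.2.2) := by
  unfold qval
  fun_prop

theorem poly_litb : NPC.Poly (fun p : QF × ℕ => litb p.1 p.2) := by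
  unfold litb
  fun_prop

theorem poly_litb' {α : Type} [TEnc α] {Q : α → QF} {b : α → ℕ} (h1 : NPC.Poly Q)
    (h2 : NPC.Poly b) : NPC.Poly (fun a => litb (Q a) (b a)) := poly_litb.comp (h1.pair h2)

theorem poly_vstep' {α : Type} [TEnc α] {Q : α → QF} {b : α → ℕ} (h1 : NPC.Poly Q)
    (h2 : NPC.Poly b) : NPC.Poly (fun a => vstep (Q a) (b a)) := by
  unfold vstep
  fun_prop

attribute [fun_prop] poly_litb' poly_vstep'

theorem poly_qcf : NPC.Poly (fun p : QF × ((ℕ × ℕ) × (ℕ × ℕ)) =>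
    qcf p.1 p.2.1.1 p.2.1.2 p.2.2.1 p.2.2.2) := by
  unfold qcf
  fun_prop

theorem uPoly_n {α : Type} [TEnc α] {Q : α → QF} (h1 : NPC.Poly Q) :
    UPoly (fun a => (Q a).1.length) := UPoly.length (by fun_prop)

theorem uPoly_m {α : Type} [TEnc α] {Q : α → QF} (h1 : NPC.Poly Q) :
    UPoly (fun a => (Q a).2.length) := UPoly.length (by fun_prop)

theorem WW_eq (Q : QF) : WW Q = Q.2.flatten.length := by
  unfold WW
  rw [List.length_flatten]

theorem uPoly_WW {α : Type} [TEnc α] {Q : α → QF} (h1 : NPC.Poly Q) :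
    UPoly (fun a => WW (Q a)) := by
  simp only [WW_eq]
  exact UPoly.length (by fun_prop)

theorem uPoly_T {α : Type} [TEnc α] {Q : α → QF} (h1 : NPC.Poly Q) :
    UPoly (fun a => (dat (Q a)).T) :=
  ((UPoly.const 2).mul (uPoly_n h1)).add (UPoly.const 3)

theorem uPoly_M {α : Type} [TEnc α] {Q : α → QF} (h1 : NPC.Poly Q) :
    UPoly (fun a => (dat (Q a)).M) :=
  ((UPoly.const 4).add ((UPoly.const 2).mul (uPoly_m h1))).add
    (((UPoly.const 2).mul (uPoly_m h1)).mul (uPoly_WW h1))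

theorem uPoly_U {α : Type} [TEnc α] {Q : α → QF} (h1 : NPC.Poly Q) :
    UPoly (fun a => (dat (Q a)).U) := (uPoly_T h1).add (UPoly.const 1)

theorem uPoly_EE {α : Type} [TEnc α] {Q : α → QF} (h1 : NPC.Poly Q) :
    UPoly (fun a => (dat (Q a)).EE) :=
  (((UPoly.const 2).mul ((uPoly_U h1).mul (uPoly_T h1))).add (uPoly_T h1)).add (UPoly.const 2)

theorem poly_T {α : Type} [TEnc α] {Q : α → QF} (h1 : NPC.Poly Q) :
    NPC.Poly (fun a => (dat (Q a)).T) := (uPoly_T h1).toPoly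

theorem poly_M {α : Type} [TEnc α] {Q : α → QF} (h1 : NPC.Poly Q) :
    NPC.Poly (fun a => (dat (Q a)).M) := (uPoly_M h1).toPoly

theorem poly_U {α : Type} [TEnc α] {Q : α → QF} (h1 : NPC.Poly Q) :
    NPC.Poly (fun a => (dat (Q a)).U) := (uPoly_U h1).toPoly

theorem poly_EE {α : Type} [TEnc α] {Q : α → QF} (h1 : NPC.Poly Q) :
    NPC.Poly (fun a => (dat (Q a)).EE) := (uPoly_EE h1).toPoly

theorem poly_val {α : Type} [TEnc α] {Q : α → QF} {t a : α → ℕ} (h1 : NPC.Poly Q)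
    (h2 : NPC.Poly t) (h3 : NPC.Poly a) : NPC.Poly (fun x => (dat (Q x)).val (t x) (a x)) :=
  poly_qval.comp (h1.pair (h2.pair h3))

theorem poly_cf {α : Type} [TEnc α] {Q : α → QF} {i a j b : α → ℕ} (h1 : NPC.Poly Q)
    (h2 : NPC.Poly i) (h3 : NPC.Poly a) (h4 : NPC.Poly j) (h5 : NPC.Poly b) :
    NPC.Poly (fun x => (dat (Q x)).cf (i x) (a x) (j x) (b x)) :=
  poly_qcf.comp (h1.pair ((h2.pair h3).pair (h4.pair h5)))

attribute [fun_prop] poly_T poly_M poly_U poly_EE poly_val poly_cf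

theorem poly_wt : NPC.Poly (fun p : QF × (Bool × ((ℕ × ℕ) × (ℕ × ℕ))) =>
    (dat p.1).wt p.2.1 p.2.2.1 p.2.2.2) := by
  unfold Dat.wt own
  fun_prop

theorem poly_wt' {α : Type} [TEnc α] {Q : α → QF} {Y : α → Bool} {c c' : α → ℕ × ℕ}
    (h1 : NPC.Poly Q) (h2 : NPC.Poly Y) (h3 : NPC.Poly c) (h4 : NPC.Poly c') :
    NPC.Poly (fun x => (dat (Q x)).wt (Y x) (c x) (c' x)) :=
  poly_wt.comp (h1.pair (h2.pair (h3.pair h4)))

attribute [fun_prop] poly_wt'

theorem poly_inLb (ex : ℕ) : NPC.Poly (fun p : QF × Lab => inLb (dat p.1) ex p.2) := by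
  unfold inLb okb lexb tp
  fun_prop

theorem poly_lab (ex : ℕ) : NPC.Poly (fun Q : QF => lab (dat Q) ex) := by
  have h0 : NPC.Poly (fun Q : QF => Q) := NPC.Poly.id
  have h1 := (uPoly_T h0).range
  have h2 := (uPoly_M h0).range
  have h3 := ((((uPoly_EE h0).add ((uPoly_U h0).mul (uPoly_T h0))).add (UPoly.const ex)).add
    (UPoly.const 1)).range
  have h4 : NPC.Poly (fun Q : QF => prs (dat Q)) := by
    unfold prs
    fun_prop
  have h5 : NPC.Poly (fun Q : QF => List.range 4 ×ˢ (prs (dat Q) ×ˢ (prs (dat Q) ×ˢ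
      List.range ((dat Q).EE + (dat Q).U * (dat Q).T + ex + 1)))) := by
    fun_prop
  exact NPC.Poly.filter (l := fun Q : QF => List.range 4 ×ˢ (prs (dat Q) ×ˢ (prs (dat Q) ×ˢ
      List.range ((dat Q).EE + (dat Q).U * (dat Q).T + ex + 1))))
    (p := fun Q x => inLb (dat Q) ex x) h5 (poly_inLb ex)

theorem poly_lcol : NPC.Poly (fun x : Lab => lcol x) := by
  unfold lcol own
  fun_prop

theorem poly_lund : NPC.Poly (fun p : Lab × Lab => lund p.1 p.2) := by
  unfold lund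
  fun_prop

theorem poly_lcolf (f : Bool → Bool) : NPC.Poly (fun x : Lab => f (lcol x)) := by
  have h : (fun x : Lab => f (lcol x)) = fun x => bif lcol x then f true else f false := by
    funext x
    cases lcol x <;> rfl
  rw [h]
  exact NPC.Poly.cond poly_lcol (NPC.Poly.const _) (NPC.Poly.const _)

theorem poly_cde (ex : ℕ) (f : Bool → Bool) : NPC.Poly (fun Q : QF => cde (lab (dat Q) ex) f) := by
  have h1 := poly_lab ex
  have h2 : NPC.Poly (fun Q : QF => (lab (dat Q) ex).map fun x => f (lcol x)) :=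
    NPC.Poly.map (F := fun (_ : QF) (x : Lab) => f (lcol x)) h1
      ((poly_lcolf f).comp (NPC.Poly.id (α := QF × Lab)).snd)
  have h3 : NPC.Poly (fun p : QF × Lab => (lab (dat p.1) ex).map fun y => lund p.2 y) :=
    NPC.Poly.map (l := fun p : QF × Lab => lab (dat p.1) ex)
      (F := fun (p : QF × Lab) (y : Lab) => lund p.2 y)
      (h1.comp (NPC.Poly.id (α := QF × Lab)).fst)
      (poly_lund.comp ((NPC.Poly.id (α := (QF × Lab) × Lab)).fst.snd.pair
        (NPC.Poly.id (α := (QF × Lab) × Lab)).snd))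
  exact NPC.Poly.pair h2 (NPC.Poly.map
    (F := fun (Q : QF) (x : Lab) => (lab (dat Q) ex).map fun y => lund x y) h1 h3)

end Pool.Agent.NPC.Q328.PX
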