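import Pool.Agent.Q328.PX.Label
import Pool.Agent.Q328.PX.Defs

/-!
# The coloured posets of formulas
-/

set_option autoImplicit false

namespace Pool.Agent.NPC.Q328.PX

open Finset
open Pool.Agent.NPC.ANN (Forces)

/-- the test for existing items -/
def okb (I : Dat) (c : ℕ × ℕ) : Bool := decide (c.1 < I.T) && (decide (c.2 < I.M) && I.val c.1 c.2)

theorem okb_iff {I : Dat} {c : ℕ × ℕ} : okb I c = true ↔ I.ok c := by
  unfold okb Dat.ok
  rw [Bool.and_eq_true, Bool.and_eq_true, decide_eq_true_eq, decide_eq_true_eq]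

/-- the order of the items -/
def lexb (c c' : ℕ × ℕ) : Bool :=
  decide (c.1 < c'.1) || (decide (c.1 = c'.1) && decide (c.2 < c'.2))

theorem lexb_iff {c c' : ℕ × ℕ} : lexb c c' = true ↔ lexlt c c' := by
  unfold lexb lexlt
  simp

/-- the test for elements -/
def inLb (I : Dat) (ex : ℕ) (x : Lab) : Bool :=
  (okb I x.2.1 && decide (x = tp x.2.1)) ||
  (((decide (x.1 = 1) && decide (x.2.2.2 < I.wt true x.2.1 x.2.2.1)) ||
    (decide (x.1 = 2) && decide (x.2.2.2 < I.wt false x.2.1 x.2.2.1))) &&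
    (okb I x.2.1 && (okb I x.2.2.1 && lexb x.2.1 x.2.2.1))) ||
  (decide (x.1 = 3) && (decide (x.2.1 = (0, 0)) && (decide (x.2.2.1 = (0, 0)) &&
    decide (x.2.2.2 < ex))))

theorem inLb_iff {I : Dat} {ex : ℕ} {x : Lab} : inLb I ex x = true ↔ inL I ex x := by
  unfold inLb inL
  simp only [Bool.or_eq_true, Bool.and_eq_true, decide_eq_true_eq, okb_iff, lexb_iff]
  constructor
  · rintro ((h | ⟨h1, h2⟩) | h)
    · exact Or.inl h
    · refine Or.inr (Or.inl ?_)
      rcases h1 with ⟨h1, h3⟩ | ⟨h1, h3⟩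
      · exact ⟨true, h1, h2.1, h2.2.1, h2.2.2, h3⟩
      · exact ⟨false, h1, h2.1, h2.2.1, h2.2.2, h3⟩
    · exact Or.inr (Or.inr h)
  · rintro (h | ⟨Y, h1, h2, h3, h4, h5⟩ | h)
    · exact Or.inl (Or.inl h)
    · refine Or.inl (Or.inr ⟨?_, h2, h3, h4⟩)
      cases Y
      · exact Or.inr ⟨h1, h5⟩
      · exact Or.inl ⟨h1, h5⟩
    · exact Or.inr h

/-- the list of all pairs of numbers -/
def prs (I : Dat) : List (ℕ × ℕ) := List.range I.T ×ˢ List.range I.M

/-- the list of the elements -/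
def lab (I : Dat) (ex : ℕ) : List Lab :=
  (List.range 4 ×ˢ (prs I ×ˢ (prs I ×ˢ List.range (I.EE + I.U * I.T + ex + 1)))).filter (inLb I ex)

theorem nodup_lab (I : Dat) (ex : ℕ) : (lab I ex).Nodup := by
  unfold lab prs
  refine List.Nodup.filter _ ?_
  refine List.nodup_range.product (List.Nodup.product ?_ (List.Nodup.product ?_ List.nodup_range))
  · exact List.nodup_range.product List.nodup_range
  · exact List.nodup_range.product List.nodup_range

theorem wt_le (I : Dat) (Y : Bool) {c c' : ℕ × ℕ} (hc : I.ok c) (hc' : I.ok c') :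
    I.wt Y c c' ≤ I.EE + I.U * I.T := by
  have h1 : I.U * c.1 ≤ I.U * I.T := Nat.mul_le_mul_left _ hc.1.le
  have h2 : I.U * c'.1 ≤ I.U * I.T := Nat.mul_le_mul_left _ hc'.1.le
  unfold Dat.wt
  split_ifs <;> omega

theorem pmem {α β : Type} {l : List α} {l' : List β} {a : α} {b : β} :
    (a, b) ∈ l ×ˢ l' ↔ a ∈ l ∧ b ∈ l' := List.pair_mem_product

theorem mem_prs {I : Dat} {c : ℕ × ℕ} : c ∈ prs I ↔ c.1 < I.T ∧ c.2 < I.M := by
  unfold prs
  obtain ⟨c1, c2⟩ := c
  rw [pmem, List.mem_range, List.mem_range]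

theorem mem_lab {I : Dat} {ex : ℕ} (hT : 0 < I.T) (hM : 0 < I.M) (x : Lab) :
    x ∈ lab I ex ↔ inL I ex x := by
  unfold lab
  rw [List.mem_filter, inLb_iff]
  refine ⟨fun h => h.2, fun h => ⟨?_, h⟩⟩
  obtain ⟨k, c, c', r⟩ := x
  rw [pmem, pmem, pmem, List.mem_range, List.mem_range, mem_prs, mem_prs]
  rcases h with ⟨h1, h2⟩ | ⟨Y, h1, h2, h3, h4, h5⟩ | ⟨h1, h2, h3, h4⟩
  · unfold tp at h2
    simp only [Prod.mk.injEq] at h2
    obtain ⟨rfl, -, rfl, rfl⟩ := h2
    exact ⟨by omega, ⟨h1.1, h1.2.1⟩, ⟨hT, hM⟩, by omega⟩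
  · simp only at h1 h2 h3 h4 h5
    have h6 := wt_le I Y h2 h3
    refine ⟨?_, ⟨h2.1, h2.2.1⟩, ⟨h3.1, h3.2.1⟩, by omega⟩
    rcases kd_or Y with h7 | h7 <;> omega
  · simp only at h1 h2 h3 h4
    subst h2
    subst h3
    exact ⟨by omega, ⟨hT, hM⟩, ⟨hT, hM⟩, by omega⟩

theorem lund_trans {x y z : Lab} (h1 : lund x y = true) : lund y z = false := by
  unfold lund at *
  rw [Bool.and_eq_true, Bool.and_eq_true, decide_eq_true_eq] at h1
  have h2 := h1.2.1
  simp [h2]

/-- The coloured poset of a list of elements; `f` changes the colours. -/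
def posetOf (l : List Lab) (f : Bool → Bool) : CPoset l.length where
  white i := f (lcol (l.get i))
  lt i j := lund (l.get i) (l.get j)
  irrefl i := by
    by_contra h
    rw [Bool.not_eq_false] at h
    rw [lund_trans h] at h
    exact absurd h (by decide)
  trans i j k h1 h2 := by
    rw [lund_trans h1] at h2
    exact absurd h2 (by decide)

theorem posetOf_height (l : List Lab) (f : Bool → Bool) : (posetOf l f).HeightTwo := by
  rintro x y z ⟨h1, h2⟩
  change lund (l.get x) (l.get y) = true at h1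
  change lund (l.get y) (l.get z) = true at h2
  rw [lund_trans h1] at h2
  exact absurd h2 (by decide)

/-- the code of the poset -/
def cde (l : List Lab) (f : Bool → Bool) : List Bool × List (List Bool) :=
  (l.map fun x => f (lcol x), l.map fun x => l.map fun y => lund x y)

theorem posetOf_code (l : List Lab) (f : Bool → Bool) : (posetOf l f).code = cde l f := by
  have h1 : ∀ {β : Type} (g : Lab → β), (List.ofFn fun i : Fin l.length => g (l.get i)) =
      l.map g := fun g => List.ofFn_getElem_eq_map l g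
  unfold CPoset.code cde posetOf
  refine Prod.ext ?_ ?_
  · exact h1 fun x => f (lcol x)
  · show (List.ofFn fun x : Fin l.length => List.ofFn fun y : Fin l.length =>
      lund (l.get x) (l.get y)) = _
    rw [← h1 fun x => l.map fun y => lund x y]
    congr 1
    funext x
    exact h1 fun y => lund (l.get x) y

/-- the labels of a set of numbers -/
def img (l : List Lab) (S : Finset (Fin l.length)) : Finset Lab := S.image l.get

theorem img_erase {l : List Lab} (hl : l.Nodup) (S : Finset (Fin l.length)) (i : Fin l.length) :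
    img l (S.erase i) = (img l S).erase (l.get i) := by
  unfold img
  exact Finset.image_erase (List.nodup_iff_injective_get.mp hl) _ _

/-- the game on the numbers is the game on the labels -/
theorem fin_iff {l : List Lab} (hl : l.Nodup) {f : Bool → Bool} (hf : ∀ b, f (!b) = !f b)
    (w t : Bool) (S : Finset (Fin l.length)) :
    Forces (posetOf l f).Move w (f t, S) ↔ Forces LMv w (t, img l S) := by
  have hfi : ∀ b c, f b = f c → b = c := by
    intro b c h
    by_contra hne
    have : c = !b := by cases b <;> cases c <;> simp_all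
    rw [this, hf] at h
    revert h
    cases f b <;> simp
  refine Forces.bisim_iff (R := fun (s : Bool × Finset (Fin l.length)) (s' : Bool × Finset Lab) =>
    s.1 = f s'.1 ∧ s'.2 = img l s.2) ?_ ?_ ⟨rfl, rfl⟩
  · rintro ⟨t1, S⟩ ⟨t, S'⟩ ⟨h1, h2⟩ s' ⟨x, hx, hcol, hmax, rfl⟩
    simp only at h1 h2 hx hcol hmax
    subst h1
    subst h2
    refine ⟨(!t, (img l S).erase (l.get x)), ⟨l.get x, Finset.mem_image_of_mem _ hx,
      hfi _ _ hcol, ?_, rfl⟩, (hf t).symm, (img_erase hl S x).symm⟩
    intro y hy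
    obtain ⟨j, hj, rfl⟩ := Finset.mem_image.mp hy
    exact hmax j hj
  · rintro ⟨t1, S⟩ ⟨t, S'⟩ ⟨h1, h2⟩ s' ⟨x, hx, hcol, hmax, rfl⟩
    simp only at h1 h2 hx hcol hmax
    subst h1
    subst h2
    obtain ⟨i, hi, rfl⟩ := Finset.mem_image.mp hx
    refine ⟨(!f t, S.erase i), ⟨i, hi, ?_, ?_, rfl⟩, (hf t).symm, (img_erase hl S i).symm⟩
    · show f (lcol (l.get i)) = f t
      rw [hcol]
    · intro j hj
      exact hmax _ (Finset.mem_image_of_mem _ hj)

/-- the outcome of the poset of an instance of the pair game -/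
theorem poset_iff {I : Dat} {ex : ℕ} (hT : 0 < I.T) (hM : 0 < I.M) {f : Bool → Bool}
    (hf : ∀ b, f (!b) = !f b) (w t : Bool) :
    Forces (posetOf (lab I ex) f).Move w (f t, Finset.univ) ↔
      Forces (PMv I) w (t, ∅, fun Y => if Y = true then 0 else ex) := by
  rw [fin_iff (nodup_lab I ex) hf]
  refine RL_iff (I := I) (ex := ex) (RL_init ?_ t)
  intro x
  rw [← mem_lab hT hM x]
  unfold img
  rw [Finset.mem_image]
  constructor
  · rintro ⟨i, -, rfl⟩
    exact List.get_mem _ _
  · intro h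
    obtain ⟨i, hi⟩ := List.mem_iff_get.mp h
    exact ⟨i, Finset.mem_univ _, hi⟩

end Pool.Agent.NPC.Q328.PX
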