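import Pool.Agent.Q328.PX.Zero

/-!
# The pair game as a pomax game
-/

set_option autoImplicit false

namespace Pool.Agent.NPC.Q328.PX

open Finset
open Pool.Agent.NPC.ANN (Forces)

/-- labels of the elements -/
abbrev Lab : Type := ℕ × ((ℕ × ℕ) × ((ℕ × ℕ) × ℕ))

/-- the colour -/
def lcol (x : Lab) : Bool := if x.1 = 0 then own x.2.1.1 else decide (x.1 = 1)

/-- the order -/
def lund (x y : Lab) : Bool :=
  (decide (x.1 = 1) || decide (x.1 = 2)) && (decide (y.1 = 0) &&
    (decide (y.2.1 = x.2.1) || decide (y.2.1 = x.2.2.1)))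

/-- moves -/
def LMv (s s' : Bool × Finset Lab) : Prop :=
  ∃ x ∈ s.2, lcol x = s.1 ∧ (∀ y ∈ s.2, lund x y = false) ∧ s' = (!s.1, s.2.erase x)

/-- the order of the items -/
def lexlt (c c' : ℕ × ℕ) : Prop := c.1 < c'.1 ∨ (c.1 = c'.1 ∧ c.2 < c'.2)

instance : DecidableRel lexlt := fun c c' => by unfold lexlt; infer_instance

theorem lexlt_total {c c' : ℕ × ℕ} (h : c ≠ c') : lexlt c c' ∨ lexlt c' c := by
  unfold lexlt
  by_contra hno
  exact h (Prod.ext (by omega) (by omega))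

theorem lexlt_asymm {c c' : ℕ × ℕ} (h : lexlt c c') : ¬ lexlt c' c := by
  unfold lexlt at *
  omega

theorem lexlt_ne {c c' : ℕ × ℕ} (h : lexlt c c') : c ≠ c' := by
  rintro rfl
  unfold lexlt at h
  omega

/-- the kind of the bottoms of a player -/
def kd (Y : Bool) : ℕ := if Y = true then 1 else 2

theorem kd_or (Y : Bool) : kd Y = 1 ∨ kd Y = 2 := by cases Y <;> simp [kd]

theorem kd_ne (Y : Bool) : kd Y ≠ 0 := by cases Y <;> simp [kd]

theorem kd_ne3 (Y : Bool) : kd Y ≠ 3 := by cases Y <;> simp [kd]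

theorem kd_col {Y : Bool} {x : Lab} (h : x.1 = kd Y) : lcol x = Y := by
  unfold lcol
  cases Y <;> simp [kd] at h <;> simp [h]

/-- the top element of an item -/
def tp (c : ℕ × ℕ) : Lab := (0, c, (0, 0), 0)

/-- the elements -/
def inL (I : Dat) (ex : ℕ) (x : Lab) : Prop :=
  (I.ok x.2.1 ∧ x = tp x.2.1) ∨
  (∃ Y, x.1 = kd Y ∧ I.ok x.2.1 ∧ I.ok x.2.2.1 ∧ lexlt x.2.1 x.2.2.1 ∧
    x.2.2.2 < I.wt Y x.2.1 x.2.2.1) ∨
  (x.1 = 3 ∧ x.2.1 = (0, 0) ∧ x.2.2.1 = (0, 0) ∧ x.2.2.2 < ex)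

/-- available bottoms -/
def av (D : Finset (ℕ × ℕ)) (x : Lab) : Prop :=
  x.1 = 3 ∨ ((x.1 = 1 ∨ x.1 = 2) ∧ x.2.1 ∈ D ∧ x.2.2.1 ∈ D)

instance (D : Finset (ℕ × ℕ)) (x : Lab) : Decidable (av D x) := by unfold av; infer_instance

variable {I : Dat} {ex : ℕ}

theorem wt_symm (Y : Bool) (c c' : ℕ × ℕ) : I.wt Y c c' = I.wt Y c' c := by
  unfold Dat.wt
  rcases Nat.lt_trichotomy c.1 c'.1 with h | h | h
  · have n1 : ¬ c.1 = c'.1 := by omega
    have n2 : ¬ c'.1 = c.1 := by omega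
    have n3 : ¬ c'.1 < c.1 := by omega
    simp only [n1, n2, n3, h, if_true, if_false]
  · have n3 : (c'.1 = c.1) = True := eq_true h.symm
    have n4 : (c.1 = c'.1) = True := eq_true h
    simp only [n3, n4, if_true]
    rw [h]
    by_cases h2 : c.2 = c'.2
    · simp [h2]
    · simp [h2, Ne.symm h2]
  · have n1 : ¬ c.1 = c'.1 := by omega
    have n2 : ¬ c'.1 = c.1 := by omega
    have n3 : ¬ c.1 < c'.1 := by omega
    simp only [n1, n2, n3, h, if_true, if_false]

theorem wt_self (Y : Bool) (c : ℕ × ℕ) : I.wt Y c c = 0 := by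
  unfold Dat.wt
  simp

/-- the new bottoms of a pair -/
def mk (Y : Bool) (c c' : ℕ × ℕ) (r : ℕ) : Lab :=
  if lexlt c c' then (kd Y, c, c', r) else (kd Y, c', c, r)

/-- the bottoms of a pair -/
def BB (I : Dat) (Y : Bool) (c c' : ℕ × ℕ) : Finset Lab := (range (I.wt Y c c')).image (mk Y c c')

theorem card_BB (Y : Bool) (c c' : ℕ × ℕ) : (BB I Y c c').card = I.wt Y c c' := by
  unfold BB
  rw [Finset.card_image_of_injective, Finset.card_range]
  intro r r' h
  unfold mk at h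
  split_ifs at h <;> simpa using h

theorem mem_BB {Y : Bool} {c c' : ℕ × ℕ} (hne : c ≠ c') {x : Lab} : x ∈ BB I Y c c' ↔
    x.1 = kd Y ∧ lexlt x.2.1 x.2.2.1 ∧ x.2.2.2 < I.wt Y x.2.1 x.2.2.1 ∧
      ((x.2.1 = c ∧ x.2.2.1 = c') ∨ (x.2.1 = c' ∧ x.2.2.1 = c)) := by
  obtain ⟨k, d, d', r⟩ := x
  unfold BB
  rw [Finset.mem_image]
  constructor
  · rintro ⟨r', hr, h⟩
    rw [Finset.mem_range] at hr
    unfold mk at h
    split_ifs at h with h1
    · simp only [Prod.mk.injEq] at h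
      obtain ⟨rfl, rfl, rfl, rfl⟩ := h
      exact ⟨rfl, h1, hr, Or.inl ⟨rfl, rfl⟩⟩
    · simp only [Prod.mk.injEq] at h
      obtain ⟨rfl, rfl, rfl, rfl⟩ := h
      refine ⟨rfl, (lexlt_total hne).resolve_left h1, ?_, Or.inr ⟨rfl, rfl⟩⟩
      show r' < I.wt Y c' c
      rw [wt_symm]
      exact hr
  · rintro ⟨h1, h2, h3, h4⟩
    simp only at h1 h2 h3 h4
    refine ⟨r, Finset.mem_range.mpr ?_, ?_⟩
    · rcases h4 with ⟨rfl, rfl⟩ | ⟨rfl, rfl⟩
      · exact h3
      · rw [wt_symm]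
        exact h3
    · unfold mk
      rcases h4 with ⟨rfl, rfl⟩ | ⟨rfl, rfl⟩
      · rw [if_pos h2, h1]
      · rw [if_neg (lexlt_asymm h2), h1]

/-- the correspondence of the positions -/
def RL (I : Dat) (ex : ℕ) (s : Bool × Finset Lab) (p : PS) : Prop :=
  s.1 = p.1 ∧ (∀ x ∈ s.2, inL I ex x) ∧ (∀ c, c ∈ p.2.1 ↔ I.ok c ∧ tp c ∉ s.2) ∧
  (∀ x, inL I ex x → (x.1 = 1 ∨ x.1 = 2) → ¬ (x.2.1 ∈ p.2.1 ∧ x.2.2.1 ∈ p.2.1) → x ∈ s.2) ∧
  ∀ Y, (s.2.filter fun x => av p.2.1 x ∧ lcol x = Y).card = p.2.2 Y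

theorem inL_top {x : Lab} (h : inL I ex x) (h0 : x.1 = 0) : I.ok x.2.1 ∧ x = tp x.2.1 := by
  rcases h with h | ⟨Y, h1, -⟩ | ⟨h1, -⟩
  · exact h
  · exact absurd (h1.symm.trans h0) (kd_ne Y)
  · omega

/-- the elements which become available -/
theorem new_av {s : Finset Lab} {D : Finset (ℕ × ℕ)} {c : ℕ × ℕ} (hs : ∀ x ∈ s, inL I ex x)
    (hD : ∀ c, c ∈ D ↔ I.ok c ∧ tp c ∉ s)
    (hb : ∀ x, inL I ex x → (x.1 = 1 ∨ x.1 = 2) → ¬ (x.2.1 ∈ D ∧ x.2.2.1 ∈ D) → x ∈ s)
    (hc : I.ok c) (hcD : c ∉ D) (Y : Bool) :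
    (s.erase (tp c)).filter (fun x => av (insert c D) x ∧ lcol x = Y) =
      s.filter (fun x => av D x ∧ lcol x = Y) ∪ D.biUnion (BB I Y c) := by
  ext x
  rw [Finset.mem_union, Finset.mem_filter, Finset.mem_filter, Finset.mem_biUnion, Finset.mem_erase]
  constructor
  · rintro ⟨⟨h1, h2⟩, h3, h4⟩
    by_cases h5 : av D x
    · exact Or.inl ⟨h2, h5, h4⟩
    · right
      rcases h3 with h3 | ⟨h3, h6, h7⟩
      · exact absurd (Or.inl h3) h5
      · have hxI := hs x h2
        rcases hxI with ⟨-, h8⟩ | ⟨Z, h8, h9, h10, h11, h12⟩ | ⟨h8, -⟩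
        · rw [h8] at h3
          simp [tp] at h3
        · have hZ : Z = Y := by rw [← h4, kd_col h8]
          subst hZ
          have hne := lexlt_ne h11
          have h13 : ¬ (x.2.1 ∈ D ∧ x.2.2.1 ∈ D) := fun h => h5 (Or.inr ⟨h3, h⟩)
          rw [Finset.mem_insert] at h6 h7
          rcases h6 with h6 | h6
          · rcases h7 with h7 | h7
            · exact absurd (h6.trans h7.symm) hne
            · refine ⟨x.2.2.1, h7, ?_⟩
              rw [mem_BB (by rw [← h6]; exact hne)]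
              exact ⟨h8, h11, h12, Or.inl ⟨h6, rfl⟩⟩
          · rcases h7 with h7 | h7
            · refine ⟨x.2.1, h6, ?_⟩
              rw [mem_BB (by rw [← h7]; exact hne.symm)]
              exact ⟨h8, h11, h12, Or.inr ⟨rfl, h7⟩⟩
            · exact absurd ⟨h6, h7⟩ h13
        · omega
  · rintro (⟨h1, h2, h3⟩ | ⟨c', h1, h2⟩)
    · refine ⟨⟨?_, h1⟩, ?_, h3⟩
      · rintro rfl
        unfold av tp at h2
        simp at h2
      · rcases h2 with h2 | ⟨h2, h4, h5⟩
        · exact Or.inl h2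
        · exact Or.inr ⟨h2, Finset.mem_insert_of_mem h4, Finset.mem_insert_of_mem h5⟩
    · have hne : c ≠ c' := by
        rintro rfl
        exact hcD h1
      rw [mem_BB hne] at h2
      obtain ⟨h3, h4, h5, h6⟩ := h2
      have hok' := ((hD c').1 h1).1
      have hx : inL I ex x := by
        refine Or.inr (Or.inl ⟨Y, h3, ?_, ?_, h4, h5⟩)
        · rcases h6 with ⟨h6, -⟩ | ⟨h6, -⟩
          · rw [h6]; exact hc
          · rw [h6]; exact hok'
        · rcases h6 with ⟨-, h6⟩ | ⟨-, h6⟩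
          · rw [h6]; exact hok'
          · rw [h6]; exact hc
      have hk : x.1 = 1 ∨ x.1 = 2 := by rw [h3]; exact kd_or Y
      refine ⟨⟨?_, hb x hx hk ?_⟩, Or.inr ⟨hk, ?_, ?_⟩, kd_col h3⟩
      · intro h
        rw [h] at h3
        exact kd_ne Y h3.symm
      · rintro ⟨h7, h8⟩
        rcases h6 with ⟨h6, -⟩ | ⟨-, h6⟩
        · rw [h6] at h7
          exact hcD h7
        · rw [h6] at h8
          exact hcD h8
      · rcases h6 with ⟨h6, -⟩ | ⟨h6, -⟩
        · rw [h6]; exact Finset.mem_insert_self _ _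
        · rw [h6]; exact Finset.mem_insert_of_mem h1
      · rcases h6 with ⟨-, h6⟩ | ⟨-, h6⟩
        · rw [h6]; exact Finset.mem_insert_of_mem h1
        · rw [h6]; exact Finset.mem_insert_self _ _

theorem card_new {s : Finset Lab} {D : Finset (ℕ × ℕ)} {c : ℕ × ℕ} (hs : ∀ x ∈ s, inL I ex x)
    (hD : ∀ c, c ∈ D ↔ I.ok c ∧ tp c ∉ s)
    (hb : ∀ x, inL I ex x → (x.1 = 1 ∨ x.1 = 2) → ¬ (x.2.1 ∈ D ∧ x.2.2.1 ∈ D) → x ∈ s)
    (hc : I.ok c) (hcD : c ∉ D) (Y : Bool) :
    ((s.erase (tp c)).filter (fun x => av (insert c D) x ∧ lcol x = Y)).card =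
      (s.filter (fun x => av D x ∧ lcol x = Y)).card + gain I Y c D := by
  rw [new_av hs hD hb hc hcD Y, Finset.card_union_of_disjoint]
  · congr 1
    rw [Finset.card_biUnion]
    · exact Finset.sum_congr rfl fun c' _ => card_BB Y c c'
    · intro c1 h1 c2 h2 h12
      show Disjoint (BB I Y c c1) (BB I Y c c2)
      rw [Finset.disjoint_left]
      intro x hx1 hx2
      have n1 : c ≠ c1 := by
        rintro rfl
        exact hcD h1
      have n2 : c ≠ c2 := by
        rintro rfl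
        exact hcD h2
      rw [mem_BB n1] at hx1
      rw [mem_BB n2] at hx2
      rcases hx1.2.2.2 with ⟨e1, e2⟩ | ⟨e1, e2⟩ <;> rcases hx2.2.2.2 with ⟨e3, e4⟩ | ⟨e3, e4⟩
      · exact h12 (e2.symm.trans e4)
      · exact n2 (e1.symm.trans e3)
      · exact n1 (e3.symm.trans e1)
      · exact h12 (e1.symm.trans e3)
  · rw [Finset.disjoint_left]
    intro x hx hx2
    rw [Finset.mem_filter] at hx
    rw [Finset.mem_biUnion] at hx2
    obtain ⟨c', h1, h2⟩ := hx2
    have hne : c ≠ c' := by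
      rintro rfl
      exact hcD h1
    rw [mem_BB hne] at h2
    obtain ⟨h3, -, -, h6⟩ := h2
    rcases hx.2.1 with h7 | ⟨-, h7, h8⟩
    · rw [h3] at h7
      exact kd_ne3 Y h7
    · rcases h6 with ⟨h6, -⟩ | ⟨-, h6⟩
      · rw [h6] at h7
        exact hcD h7
      · rw [h6] at h8
        exact hcD h8

theorem lund_top {c : ℕ × ℕ} {y : Lab} : lund (tp c) y = false := by
  unfold lund tp
  simp

theorem RL_top {t : Bool} {s : Finset Lab} {D : Finset (ℕ × ℕ)} {a : Bool → ℕ} {c : ℕ × ℕ}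
    (h : RL I ex (t, s) (t, D, a)) (hc : I.ok c) (hcs : tp c ∈ s) :
    c ∉ D ∧ RL I ex (!t, s.erase (tp c)) (!t, insert c D, fun Y => a Y + gain I Y c D) := by
  obtain ⟨-, hs, hD, hb, ha⟩ := h
  simp only at hs hD hb ha
  have hcD : c ∉ D := fun h => ((hD c).1 h).2 hcs
  refine ⟨hcD, rfl, ?_, ?_, ?_, ?_⟩
  · intro x hx
    exact hs x (Finset.mem_of_mem_erase hx)
  · intro c'
    show c' ∈ insert c D ↔ I.ok c' ∧ tp c' ∉ s.erase (tp c)
    rw [Finset.mem_insert, Finset.mem_erase, hD c']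
    constructor
    · rintro (rfl | ⟨h1, h2⟩)
      · exact ⟨hc, fun h => h.1 rfl⟩
      · exact ⟨h1, fun h => h2 h.2⟩
    · rintro ⟨h1, h2⟩
      by_cases h3 : c' = c
      · exact Or.inl h3
      · refine Or.inr ⟨h1, fun h4 => h2 ⟨fun h5 => h3 ?_, h4⟩⟩
        unfold tp at h5
        simpa using h5
  · intro x hx hk hn
    rw [Finset.mem_erase]
    refine ⟨?_, hb x hx hk fun h => hn ⟨Finset.mem_insert_of_mem h.1, Finset.mem_insert_of_mem h.2⟩⟩
    rintro rfl
    simp [tp] at hk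
  · intro Y
    show ((s.erase (tp c)).filter (fun x => av (insert c D) x ∧ lcol x = Y)).card =
      a Y + gain I Y c D
    rw [card_new hs hD hb hc hcD Y, ha Y]

theorem RL_bot {t : Bool} {s : Finset Lab} {D : Finset (ℕ × ℕ)} {a : Bool → ℕ} {x : Lab}
    (h : RL I ex (t, s) (t, D, a)) (hx : x ∈ s) (hav : av D x) (hcol : lcol x = t) :
    0 < a t ∧ RL I ex (!t, s.erase x) (!t, D, Function.update a t (a t - 1)) := by
  obtain ⟨-, hs, hD, hb, ha⟩ := h
  simp only at hs hD hb ha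
  have hk : x.1 ≠ 0 := by
    rcases hav with h | ⟨h | h, -⟩ <;> omega
  have hmem : x ∈ s.filter (fun x => av D x ∧ lcol x = t) :=
    Finset.mem_filter.mpr ⟨hx, hav, hcol⟩
  have hpos : 0 < a t := by
    rw [← ha t]
    exact Finset.card_pos.mpr ⟨x, hmem⟩
  refine ⟨hpos, rfl, ?_, ?_, ?_, ?_⟩
  · intro y hy
    exact hs y (Finset.mem_of_mem_erase hy)
  · intro c'
    show c' ∈ D ↔ I.ok c' ∧ tp c' ∉ s.erase x
    rw [Finset.mem_erase, hD c']
    refine and_congr_right fun _ => not_congr ⟨fun h => ⟨?_, h⟩, fun h => h.2⟩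
    rintro rfl
    exact hk rfl
  · intro y hy hky hn
    rw [Finset.mem_erase]
    refine ⟨?_, hb y hy hky hn⟩
    rintro rfl
    rcases hav with h | h
    · omega
    · exact hn h.2
  · intro Y
    show ((s.erase x).filter (fun x => av D x ∧ lcol x = Y)).card =
      Function.update a t (a t - 1) Y
    rw [Finset.filter_erase]
    by_cases hY : Y = t
    · subst hY
      rw [Finset.card_erase_of_mem hmem, ha Y, Function.update_self]
    · rw [Function.update_of_ne hY, Finset.erase_eq_of_notMem, ha Y]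
      intro h
      rw [Finset.mem_filter] at h
      exact hY (h.2.2.symm.trans hcol)

/-- The two games are bisimilar. -/
theorem RL_iff {w : Bool} {s : Bool × Finset Lab} {p : PS} (h : RL I ex s p) :
    Forces LMv w s ↔ Forces (PMv I) w p := by
  refine Forces.bisim_iff (R := RL I ex) ?_ ?_ h
  · rintro ⟨t, s⟩ ⟨t', D, a⟩ hR s' ⟨x, hx, hcol, hmax, rfl⟩
    obtain rfl : t = t' := hR.1
    simp only at hx hcol hmax
    have hxI := hR.2.1 x hx
    by_cases h0 : x.1 = 0
    · obtain ⟨h1, h2⟩ := inL_top hxI h0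
      rw [h2] at hx
      obtain ⟨h3, h4⟩ := RL_top hR h1 hx
      refine ⟨_, PMv.top h1 ?_ h3, ?_⟩
      · rw [← hcol]
        unfold lcol
        rw [if_pos h0]
      · rw [show x = tp x.2.1 from h2]
        exact h4
    · have hav : av D x := by
        rcases hxI with ⟨-, h2⟩ | ⟨Y, h1, h2, h3, h4, h5⟩ | ⟨h1, -⟩
        · rw [h2] at h0
          exact absurd rfl h0
        · refine Or.inr ⟨by rw [h1]; exact kd_or Y, ?_, ?_⟩
          · rw [hR.2.2.1]
            refine ⟨h2, fun h => ?_⟩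
            have h6 := hmax _ h
            unfold lund tp at h6
            rcases kd_or Y with h7 | h7 <;> rw [h7] at h1 <;> simp [h1] at h6
          · rw [hR.2.2.1]
            refine ⟨h3, fun h => ?_⟩
            have h6 := hmax _ h
            unfold lund tp at h6
            rcases kd_or Y with h7 | h7 <;> rw [h7] at h1 <;> simp [h1] at h6
        · exact Or.inl h1
      obtain ⟨h3, h4⟩ := RL_bot hR hx hav hcol
      exact ⟨_, PMv.bot h3, h4⟩
  · rintro ⟨t, s⟩ ⟨t', D, a⟩ hR p' hp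
    obtain rfl : t = t' := hR.1
    cases hp with
    | bot h0 =>
      have hRt := hR.2.2.2.2 t
      change (s.filter (fun x => av D x ∧ lcol x = t)).card = a t at hRt
      rw [← hRt] at h0
      obtain ⟨x, hx⟩ := Finset.card_pos.mp h0
      rw [Finset.mem_filter] at hx
      obtain ⟨hx1, hx2, hx3⟩ := hx
      change av D x at hx2
      refine ⟨(!t, s.erase x), ⟨x, hx1, hx3, ?_, rfl⟩, (RL_bot hR hx1 hx2 hx3).2⟩
      intro y hy
      by_contra hl
      rw [Bool.not_eq_false] at hl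
      unfold lund at hl
      rw [Bool.and_eq_true, Bool.and_eq_true, Bool.or_eq_true, Bool.or_eq_true, decide_eq_true_eq,
        decide_eq_true_eq, decide_eq_true_eq, decide_eq_true_eq, decide_eq_true_eq] at hl
      obtain ⟨h1, h2, h3⟩ := hl
      have h4 := inL_top (hR.2.1 y hy) h2
      have h5 : y.2.1 ∈ D := by
        rcases hx2 with h6 | ⟨-, h6, h7⟩
        · omega
        · rcases h3 with h3 | h3
          · rw [h3]; exact h6
          · rw [h3]; exact h7
      have h6 := ((hR.2.2.1 y.2.1).1 h5).2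
      rw [← h4.2] at h6
      exact h6 hy
    | @top _ _ _ c hc ho hD =>
      have hcs : tp c ∈ s := by
        by_contra h
        exact hD ((hR.2.2.1 c).2 ⟨hc, h⟩)
      refine ⟨(!t, s.erase (tp c)), ⟨tp c, hcs, ?_, fun _ _ => lund_top, rfl⟩, (RL_top hR hc hcs).2⟩
      rw [← ho]
      rfl

/-- the initial positions -/
theorem RL_init {s : Finset Lab} (hs : ∀ x, x ∈ s ↔ inL I ex x) (t : Bool) :
    RL I ex (t, s) (t, ∅, fun Y => if Y = true then 0 else ex) := by
  refine ⟨rfl, fun x hx => (hs x).1 hx, ?_, fun x hx _ _ => (hs x).2 hx, ?_⟩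
  · intro c
    constructor
    · intro h
      simp at h
    · rintro ⟨h1, h2⟩
      exact absurd ((hs _).2 (Or.inl ⟨h1, rfl⟩)) h2
  · intro Y
    show (s.filter (fun x => av ∅ x ∧ lcol x = Y)).card = if Y = true then 0 else ex
    cases Y with
    | true =>
      rw [if_pos rfl, Finset.card_eq_zero, Finset.filter_eq_empty_iff]
      rintro x - ⟨h1, h2⟩
      have h3 : x.1 = 3 := by
        rcases h1 with h1 | ⟨-, h1, -⟩
        · exact h1
        · simp at h1
      unfold lcol at h2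
      simp [h3] at h2
    | false =>
      rw [if_neg (by decide)]
      have h1 : s.filter (fun x => av ∅ x ∧ lcol x = false) =
          (range ex).image fun r => ((3, (0, 0), (0, 0), r) : Lab) := by
        ext x
        rw [Finset.mem_filter, Finset.mem_image, hs]
        constructor
        · rintro ⟨h1, h2, -⟩
          have h3 : x.1 = 3 := by
            rcases h2 with h1 | ⟨-, h1, -⟩
            · exact h1
            · simp at h1
          rcases h1 with ⟨-, h4⟩ | ⟨Y, h4, -⟩ | ⟨-, h4, h5, h6⟩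
          · rw [h4] at h3
            simp [tp] at h3
          · exact absurd (h4.symm.trans h3) (kd_ne3 Y)
          · exact ⟨x.2.2.2, Finset.mem_range.mpr h6, Prod.ext h3.symm
              (Prod.ext h4.symm (Prod.ext h5.symm rfl))⟩
        · rintro ⟨r, hr, rfl⟩
          exact ⟨Or.inr (Or.inr ⟨rfl, rfl, rfl, Finset.mem_range.mp hr⟩), Or.inl rfl, by
            simp [lcol]⟩
      rw [h1, Finset.card_image_of_injective, Finset.card_range]
      intro r r' h
      simpa using h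

end Pool.Agent.NPC.Q328.PX
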