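import Pool.Agent.Q328.PX.PW

/-!
# The players have to make the steps in their order
-/

set_option autoImplicit false

namespace Pool.Agent.NPC.Q328.PX

open Finset
open Pool.Agent.NPC.ANN (Forces)

variable {I : Dat}

/-- The option `b` may be chosen after `h`. -/
def safe (I : Dat) (h : List ℕ) (b : ℕ) : Prop :=
  b < I.M ∧ I.val h.length b = true ∧ ∀ i < h.length, I.cf i (h.getD i 0) h.length b = false

/-- The player who chooses the next option wins, with `n` steps left. -/
def win (I : Dat) : ℕ → List ℕ → Prop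
  | 0, _ => False
  | n + 1, h => ∃ b, safe I h b ∧ ¬ win I n (h ++ [b])

/-- the deleted items -/
def items (h : List ℕ) : Finset (ℕ × ℕ) := (range h.length).image fun i => (i, h.getD i 0)

theorem mem_items {h : List ℕ} {c : ℕ × ℕ} :
    c ∈ items h ↔ c.1 < h.length ∧ c.2 = h.getD c.1 0 := by
  unfold items
  rw [Finset.mem_image]
  constructor
  · rintro ⟨i, hi, rfl⟩
    exact ⟨Finset.mem_range.mp hi, rfl⟩
  · rintro ⟨h1, h2⟩
    exact ⟨c.1, Finset.mem_range.mpr h1, Prod.ext rfl h2.symm⟩

theorem items_append (h : List ℕ) (b : ℕ) : items (h ++ [b]) = insert (h.length, b) (items h) := by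
  ext c
  rw [Finset.mem_insert, mem_items, mem_items, List.length_append, List.length_singleton]
  constructor
  · rintro ⟨h1, h2⟩
    rcases Nat.lt_or_ge c.1 h.length with h3 | h3
    · rw [List.getD_append _ _ _ _ h3] at h2
      exact Or.inr ⟨h3, h2⟩
    · have h4 : c.1 = h.length := by omega
      left
      rw [h4, List.getD_append_right _ _ _ _ le_rfl] at h2
      exact Prod.ext h4 (by simpa using h2)
  · rintro (h1 | ⟨h1, h2⟩)
    · rw [h1]
      refine ⟨by simp, ?_⟩
      rw [List.getD_append_right _ _ _ _ le_rfl]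
      simp
    · exact ⟨by omega, by rw [List.getD_append _ _ _ _ h1]; exact h2⟩

/-- conflicts only occur between neighbouring steps and with the last step -/
def Loc (I : Dat) : Prop := ∀ i a j b, I.cf i a j b = true → j = i + 1 ∨ j + 1 = I.T

/-- each item can be attacked from the step before -/
def Att (I : Dat) : Prop := ∀ t b, 1 ≤ t → I.ok (t, b) → ∃ a, I.ok (t - 1, a) ∧
  I.cf (t - 1) a t b = true

theorem gain_le (hL : Loc I) {q : Bool} {D : Finset (ℕ × ℕ)}
    (hinj : ∀ c1 ∈ D, ∀ c2 ∈ D, c1.1 = c2.1 → c1 = c2) (hT : ∀ c ∈ D, c.1 < I.T)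
    (hD : ∀ c ∈ D, own c.1 = !q) {c : ℕ × ℕ} (hc : own c.1 = q) :
    gain I q c D ≤ 2 * (I.U * I.T) := by
  have h1 : ∀ c' ∈ D, I.wt q c c' ≤ if c'.1 = c.1 + 1 ∨ c'.1 + 1 = I.T then I.U * I.T else 0 := by
    intro c' hc'
    have h2 := hT c' hc'
    unfold Dat.wt
    by_cases h3 : c.1 = c'.1
    · rw [if_pos h3, if_neg]
      · exact Nat.zero_le _
      · rintro ⟨-, h4⟩
        rw [hc] at h4
        revert h4
        cases q <;> simp
    · rw [if_neg h3]
      by_cases h4 : c.1 < c'.1
      · rw [if_pos h4]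
        by_cases h5 : I.cf c.1 c.2 c'.1 c'.2 = true ∧ q = !own c'.1
        · rw [if_pos h5, if_pos (hL _ _ _ _ h5.1)]
          exact Nat.mul_le_mul_left _ h2.le
        · rw [if_neg h5]
          exact Nat.zero_le _
      · rw [if_neg h4, if_neg]
        · exact Nat.zero_le _
        · rintro ⟨-, h5⟩
          rw [hc] at h5
          revert h5
          cases q <;> simp
  calc gain I q c D ≤ ∑ c' ∈ D, if c'.1 = c.1 + 1 ∨ c'.1 + 1 = I.T then I.U * I.T else 0 :=
        Finset.sum_le_sum h1
    _ = (D.filter fun c' => c'.1 = c.1 + 1 ∨ c'.1 + 1 = I.T).card * (I.U * I.T) := by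
        rw [← Finset.sum_filter, Finset.sum_const, smul_eq_mul]
    _ ≤ 2 * (I.U * I.T) := by
        refine Nat.mul_le_mul_right _ ?_
        have h6 : (D.filter fun c' => c'.1 = c.1 + 1 ∨ c'.1 + 1 = I.T).card ≤
            (({c.1 + 1, I.T - 1} : Finset ℕ)).card := by
          refine Finset.card_le_card_of_injOn Prod.fst ?_ ?_
          · intro x hx
            have hx' := (Finset.mem_filter.mp (Finset.mem_coe.mp hx)).2
            rw [Finset.mem_coe, Finset.mem_insert, Finset.mem_singleton]
            omega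
          · intro x hx y hy hxy
            exact hinj _ (Finset.mem_filter.mp (Finset.mem_coe.mp hx)).1 _
              (Finset.mem_filter.mp (Finset.mem_coe.mp hy)).1 hxy
        exact h6.trans (Finset.card_le_two)

/-- gains vanish if all deleted items belong to earlier steps -/
theorem gain_zero {q : Bool} {D : Finset (ℕ × ℕ)} {c : ℕ × ℕ} (hc : own c.1 = q)
    (h : ∀ c' ∈ D, c'.1 < c.1) : gain I q c D = 0 := by
  refine Finset.sum_eq_zero fun c' hc' => ?_
  have h1 := h c' hc'
  unfold Dat.wt
  rw [if_neg (by omega), if_neg (by omega), if_neg]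
  rintro ⟨-, h5⟩
  rw [hc] at h5
  revert h5
  cases q <;> simp

theorem not_own {q : Bool} {n : ℕ} (h : own n = q) : own n ≠ !q := by
  rw [h]
  cases q <;> simp

end Pool.Agent.NPC.Q328.PX
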