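import Pool.Agent.H578R2.ANN.Game

/-!
# A deletion game with pairs

Players own items, arranged in steps; deleting two items of a pair gives one of the players a number
of free moves.  With suitable weights both players have to make the steps in their order.
-/

set_option autoImplicit false

namespace Pool.Agent.NPC.Q328.PX

open Finset
open Pool.Agent.NPC.ANN (Forces)

/-- The data: the number of steps, a bound for the options, the options which exist at a step, and
the conflicts between an option of a step and an option of a later step. -/
structure Dat where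
  /-- number of steps -/
  T : ℕ
  /-- bound for the options -/
  M : ℕ
  /-- existing options -/
  val : ℕ → ℕ → Bool
  /-- conflicts -/
  cf : ℕ → ℕ → ℕ → ℕ → Bool

/-- the owner of a step -/
def own (t : ℕ) : Bool := decide (t % 2 = 0)

theorem own_succ (t : ℕ) : own (t + 1) = !own t := by
  unfold own
  rcases Nat.mod_two_eq_zero_or_one t with h | h
  · have : (t + 1) % 2 = 1 := by omega
    simp [h, this]
  · have : (t + 1) % 2 = 0 := by omega
    simp [h, this]

theorem own_eq_iff {s t : ℕ} : own s = own t ↔ s % 2 = t % 2 := by
  unfold own
  rw [decide_eq_decide]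
  omega

namespace Dat

variable (I : Dat)

/-- unit -/
def U : ℕ := I.T + 1

/-- the weight of two options of the same step -/
def EE : ℕ := 2 * (I.U * I.T) + I.T + 2

/-- weights: the number of free moves of player `Y` when both items have been deleted -/
def wt (Y : Bool) (c c' : ℕ × ℕ) : ℕ :=
  if c.1 = c'.1 then (if c.2 ≠ c'.2 ∧ Y = !own c.1 then I.EE else 0)
  else if c.1 < c'.1 then (if I.cf c.1 c.2 c'.1 c'.2 = true ∧ Y = !own c'.1 then I.U * c'.1 else 0)
  else (if I.cf c'.1 c'.2 c.1 c.2 = true ∧ Y = !own c.1 then I.U * c.1 else 0)

/-- an existing item -/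
def ok (c : ℕ × ℕ) : Prop := c.1 < I.T ∧ c.2 < I.M ∧ I.val c.1 c.2 = true

end Dat

/-- Positions: the player to move, the deleted items, the free moves. -/
abbrev PS : Type := Bool × (Finset (ℕ × ℕ) × (Bool → ℕ))

/-- the gain of player `Y` when `c` is deleted -/
def gain (I : Dat) (Y : Bool) (c : ℕ × ℕ) (D : Finset (ℕ × ℕ)) : ℕ := ∑ c' ∈ D, I.wt Y c c'

/-- Moves. -/
inductive PMv (I : Dat) : PS → PS → Prop
  | bot {t : Bool} {D : Finset (ℕ × ℕ)} {a : Bool → ℕ} (h : 0 < a t) :
      PMv I (t, D, a) (!t, D, Function.update a t (a t - 1))
  | top {t : Bool} {D : Finset (ℕ × ℕ)} {a : Bool → ℕ} {c : ℕ × ℕ} (hc : I.ok c)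
      (ho : own c.1 = t) (hD : c ∉ D) :
      PMv I (t, D, a) (!t, insert c D, fun Y => a Y + gain I Y c D)

variable {I : Dat}

theorem wt_own {q : Bool} {c c' : ℕ × ℕ} (hc : own c.1 = q) (hc' : own c'.1 = q) :
    I.wt q c c' = 0 := by
  unfold Dat.wt
  split_ifs with h1 h2 h3 h4 h5 <;> try rfl
  · rw [hc] at h2
    exact absurd h2.2 (by cases q <;> simp)
  · rw [hc'] at h4
    exact absurd h4.2 (by cases q <;> simp)
  · rw [hc] at h5
    exact absurd h5.2 (by cases q <;> simp)

/-- the gain of the owner comes from the items of the other player -/
theorem gain_own {q : Bool} {c : ℕ × ℕ} (hc : own c.1 = q) (D : Finset (ℕ × ℕ)) :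
    gain I q c D = gain I q c (D.filter fun c' => own c'.1 = !q) := by
  unfold gain
  rw [Finset.sum_filter]
  refine Finset.sum_congr rfl fun c' _ => ?_
  split_ifs with h
  · rfl
  · refine wt_own hc ?_
    revert h
    cases own c'.1 <;> cases q <;> simp

/-- the steps of `q` without a deleted item -/
def fr (I : Dat) (q : Bool) (D : Finset (ℕ × ℕ)) : Finset ℕ :=
  (range I.T).filter fun x => own x = q ∧ ∀ c ∈ D, c.1 ≠ x

/-- the existing items of `q` which are left -/
def rest (I : Dat) (q : Bool) (D : Finset (ℕ × ℕ)) : Finset (ℕ × ℕ) :=
  ((range I.T) ×ˢ (range I.M)).filter fun c => own c.1 = q ∧ I.val c.1 c.2 = true ∧ c ∉ D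

theorem update_ne (a : Bool → ℕ) (q : Bool) (n : ℕ) : Function.update a q n (!q) = a (!q) :=
  Function.update_of_ne (by cases q <;> simp) _ _

/-- A player who is ahead wins. -/
theorem ahead {R : ℕ → ℕ} {q : Bool} {D : Finset (ℕ × ℕ)} {a : Bool → ℕ}
    (h1 : ∀ c, I.ok c → own c.1 = q →
      gain I q c (D.filter fun c' => own c'.1 = !q) + 1 ≤ I.EE)
    (h2 : ∀ c, I.ok c → own c.1 = q → (∀ c' ∈ D, c'.1 ≠ c.1) →
      gain I q c (D.filter fun c' => own c'.1 = !q) + 1 ≤ R c.1)
    (h3 : a q + ∑ x ∈ fr I q D, R x ≤ a (!q)) : Forces (PMv I) false (q, D, a) := by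
  generalize hk : (rest I q D).card = k
  induction k using Nat.strong_induction_on generalizing D a with
  | _ k ih1 =>
    generalize hm : a q = m
    induction m using Nat.strong_induction_on generalizing a with
    | _ m ih2 =>
      refine .lose fun s' hs' => ?_
      cases hs' with
      | @bot _ _ _ h =>
        have h4 : 0 < Function.update a q (a q - 1) (!q) := by
          rw [update_ne]
          omega
        refine .win (PMv.bot h4) ?_
        rw [Bool.not_not]
        refine ih2 (a q - 1) (by omega) ?_ ?_
        · rw [Function.update_self]
          rw [Function.update_of_ne (by cases q <;> simp), Function.update_self, update_ne]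
          omega
        · rw [Function.update_of_ne (by cases q <;> simp), Function.update_self]
      | @top _ _ _ c hc ho hD =>
        have g1 := gain_own (I := I) ho D
        have key : ∀ n, n ≤ a (!q) + gain I (!q) c D →
            a q + gain I q c D + ∑ x ∈ fr I q (insert c D), R x + 1 ≤ n →
            Forces (PMv I) true (!q, insert c D, fun Y => a Y + gain I Y c D) := by
          intro n hn1 hn2
          refine .win (PMv.bot (by show 0 < a (!q) + gain I (!q) c D; omega)) ?_
          rw [Bool.not_not]
          have hf : (insert c D).filter (fun c' => own c'.1 = !q) =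
              D.filter (fun c' => own c'.1 = !q) := by
            rw [Finset.filter_insert, if_neg (by rw [ho]; cases q <;> simp)]
          refine ih1 (rest I q (insert c D)).card ?_ ?_ ?_ ?_ rfl
          · rw [← hk]
            refine Finset.card_lt_card ⟨?_, ?_⟩
            · intro x hx
              simp only [rest, Finset.mem_filter, Finset.mem_insert, not_or] at hx ⊢
              exact ⟨hx.1, hx.2.1, hx.2.2.1, hx.2.2.2.2⟩
            · intro hsub
              have hcm : c ∈ rest I q D := by
                simp only [rest, Finset.mem_filter, Finset.mem_product, Finset.mem_range]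
                exact ⟨⟨hc.1, hc.2.1⟩, ho, hc.2.2, hD⟩
              have := hsub hcm
              simp [rest] at this
          · intro c1 hc1 ho1
            rw [hf]
            exact h1 c1 hc1 ho1
          · intro c1 hc1 ho1 hn
            rw [hf]
            exact h2 c1 hc1 ho1 fun c' hc' => hn c' (Finset.mem_insert_of_mem hc')
          · rw [Function.update_of_ne (by cases q <;> simp), Function.update_self]
            omega
        by_cases hx : ∃ c' ∈ D, c'.1 = c.1
        · obtain ⟨c', hc', hx⟩ := hx
          have h4 : I.EE ≤ gain I (!q) c D := by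
            have h5 : I.wt (!q) c c' = I.EE := by
              have hne : c.2 ≠ c'.2 := fun h => hD (by
                rw [show c = c' from Prod.ext hx.symm h]
                exact hc')
              unfold Dat.wt
              rw [if_pos hx.symm, if_pos ⟨hne, by rw [ho]⟩]
            rw [← h5]
            exact Finset.single_le_sum (f := fun c' => I.wt (!q) c c') (fun _ _ => Nat.zero_le _) hc'
          have h5 : fr I q (insert c D) = fr I q D := by
            unfold fr
            ext x
            simp only [Finset.mem_filter, Finset.mem_insert, forall_eq_or_imp]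
            constructor
            · rintro ⟨a1, a2, a3, a4⟩
              exact ⟨a1, a2, a4⟩
            · rintro ⟨a1, a2, a4⟩
              exact ⟨a1, a2, fun h => a4 c' hc' (by rw [hx, h]), a4⟩
          have h6 := h1 c hc ho
          rw [← g1] at h6
          refine key _ le_rfl ?_
          rw [h5]
          omega
        · push Not at hx
          have h6 := h2 c hc ho hx
          rw [← g1] at h6
          have h5 : ∑ x ∈ fr I q D, R x = R c.1 + ∑ x ∈ fr I q (insert c D), R x := by
            have h7 : c.1 ∈ fr I q D := by
              unfold fr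
              rw [Finset.mem_filter, Finset.mem_range]
              exact ⟨hc.1, ho, hx⟩
            rw [← Finset.add_sum_erase _ _ h7]
            congr 1
            refine Finset.sum_congr ?_ fun _ _ => rfl
            unfold fr
            ext x
            simp only [Finset.mem_erase, Finset.mem_filter, Finset.mem_insert, forall_eq_or_imp]
            constructor
            · rintro ⟨a0, a1, a2, a3⟩
              exact ⟨a1, a2, fun h => a0 h.symm, a3⟩
            · rintro ⟨a1, a2, a3, a4⟩
              exact ⟨fun h => a3 h.symm, a1, a2, a4⟩
          refine key _ le_rfl ?_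
          omega

end Pool.Agent.NPC.Q328.PX
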