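import Pool.Agent.Q328.PX.Thm
import Pool.Agent.H656R2.AK.QG

/-!
# Quantified formulas as instances of the pair game
-/

set_option autoImplicit false

namespace Pool.Agent.NPC.Q328.PX

open Finset
open Pool.Agent.H656R2.AK (QF QFwf evc)
open Pool.Agent.H623R2.PS (evq)

/-- a bound for the lengths of the clauses -/
def WW (Q : QF) : ℕ := (Q.2.map List.length).sum

/-- the literal of an option of the last step -/
def litb (Q : QF) (b : ℕ) : Bool × ℕ :=
  (Q.2.getD (b % (2 * Q.2.length) / 2) []).getD (b / (2 * Q.2.length)) (false, 0)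

/-- the existing options -/
def qval (Q : QF) (t a : ℕ) : Bool :=
  if t < 2 * Q.1.length + 1 then decide (a < 4)
  else if t = 2 * Q.1.length + 1 then decide (a < 2 * Q.2.length)
  else decide (a / (2 * Q.2.length) < (Q.2.getD (a % (2 * Q.2.length) / 2) []).length)

/-- the step which decides the value of a variable -/
def vstep (Q : QF) (v : ℕ) : ℕ := 2 * v + if Q.1.getD v false = true then 1 else 0

/-- the conflicts -/
def qcf (Q : QF) (i a j b : ℕ) : Bool :=
  if j < 2 * Q.1.length + 2 then decide (j = i + 1) && !decide (b % 2 = a / 2)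
  else decide (j = 2 * Q.1.length + 2) && ((decide (i = 2 * Q.1.length + 1) &&
      !decide (b % (2 * Q.2.length) = a)) ||
    (decide (i < 2 * Q.1.length) && (decide (i = vstep Q (litb Q b).2) &&
      !decide (decide (a / 2 = 1) = (litb Q b).1))))

/-- the instance -/
def dat (Q : QF) : Dat where
  T := 2 * Q.1.length + 3
  M := 4 + 2 * Q.2.length + 2 * Q.2.length * WW Q
  val := qval Q
  cf := qcf Q

variable {Q : QF}

theorem dat_loc (Q : QF) : Loc (dat Q) := by
  intro i a j b h
  change qcf Q i a j b = true at h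
  show j = i + 1 ∨ j + 1 = 2 * Q.1.length + 3
  unfold qcf at h
  split_ifs at h with h1
  · rw [Bool.and_eq_true, decide_eq_true_eq] at h
    exact Or.inl h.1
  · rw [Bool.and_eq_true, decide_eq_true_eq] at h
    right
    omega

theorem dat_att (Q : QF) : Att (dat Q) := by
  rintro t b ht ⟨h1, h2, h3⟩
  change t < 2 * Q.1.length + 3 at h1
  change qval Q t b = true at h3
  by_cases h4 : t < 2 * Q.1.length + 2
  · refine ⟨2 * (1 - b % 2), ⟨?_, ?_, ?_⟩, ?_⟩
    · show t - 1 < 2 * Q.1.length + 3
      omega
    · show 2 * (1 - b % 2) < 4 + 2 * Q.2.length + 2 * Q.2.length * WW Q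
      omega
    · show qval Q (t - 1) (2 * (1 - b % 2)) = true
      unfold qval
      rw [if_pos (by omega), decide_eq_true_eq]
      omega
    · show qcf Q (t - 1) (2 * (1 - b % 2)) t b = true
      unfold qcf
      rw [if_pos h4, Bool.and_eq_true, decide_eq_true_eq, Bool.not_eq_true', decide_eq_false_iff_not]
      constructor
      · omega
      · omega
  · have h5 : t = 2 * Q.1.length + 2 := by omega
    subst h5
    unfold qval at h3
    rw [if_neg (by omega), if_neg (by omega), decide_eq_true_eq] at h3
    have hm : 0 < Q.2.length := by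
      by_contra h0
      have h6 : Q.2 = [] := List.length_eq_zero_iff.mp (by omega)
      rw [h6] at h3
      simp at h3
    refine ⟨if b % (2 * Q.2.length) = 0 then 1 else 0, ⟨?_, ?_, ?_⟩, ?_⟩
    · show 2 * Q.1.length + 2 - 1 < 2 * Q.1.length + 3
      omega
    · show (if b % (2 * Q.2.length) = 0 then 1 else 0) < 4 + 2 * Q.2.length + 2 * Q.2.length * WW Q
      split_ifs <;> omega
    · show qval Q (2 * Q.1.length + 2 - 1) (if b % (2 * Q.2.length) = 0 then 1 else 0) = true
      unfold qval
      rw [if_neg (by omega), if_pos (by omega), decide_eq_true_eq]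
      split_ifs <;> omega
    · show qcf Q (2 * Q.1.length + 2 - 1) (if b % (2 * Q.2.length) = 0 then 1 else 0)
        (2 * Q.1.length + 2) b = true
      unfold qcf
      rw [if_neg (by omega), Bool.and_eq_true, Bool.or_eq_true, Bool.and_eq_true]
      refine ⟨by simp, Or.inl ⟨by simp, ?_⟩⟩
      rw [Bool.not_eq_true', decide_eq_false_iff_not]
      split_ifs with h6
      · omega
      · exact h6

/-- the value of a variable -/
def uv (Q : QF) (h : List ℕ) (v : ℕ) : Bool := decide (h.getD (vstep Q v) 0 / 2 = 1)

/-- all entries are small -/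
def sm (h : List ℕ) : Prop := ∀ i < h.length, h.getD i 0 < 4

theorem sm_append {h : List ℕ} {b : ℕ} (hs : sm h) (hb : b < 4) : sm (h ++ [b]) := by
  intro i hi
  rw [List.length_append, List.length_singleton] at hi
  rcases Nat.lt_or_ge i h.length with h1 | h1
  · rw [List.getD_append _ _ _ _ h1]
    exact hs i h1
  · have : i = h.length := by omega
    rw [this, List.getD_append_right _ _ _ _ le_rfl]
    simpa using hb

theorem safe_small {h : List ℕ} {b : ℕ} (hl : h.length < 2 * Q.1.length + 1) :
    safe (dat Q) h b ↔ b < 4 ∧ ∀ i, i + 1 = h.length → b % 2 = h.getD i 0 / 2 := by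
  unfold safe
  change (b < 4 + 2 * Q.2.length + 2 * Q.2.length * WW Q ∧ qval Q h.length b = true ∧
    ∀ i < h.length, qcf Q i (h.getD i 0) h.length b = false) ↔ _
  unfold qval qcf
  rw [if_pos hl, decide_eq_true_eq]
  constructor
  · rintro ⟨-, h1, h2⟩
    refine ⟨h1, fun i hi => ?_⟩
    have h3 := h2 i (by omega)
    rw [if_pos (by omega), Bool.and_eq_false_iff] at h3
    simpa [hi] using h3
  · rintro ⟨h1, h2⟩
    refine ⟨by omega, h1, fun i hi => ?_⟩
    rw [if_pos (by omega), Bool.and_eq_false_iff]
    by_cases h3 : i + 1 = h.length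
    · right
      simpa using h2 i h3
    · left
      simp only [decide_eq_false_iff_not]
      omega

theorem safe_kap {h : List ℕ} {b : ℕ} (hl : h.length = 2 * Q.1.length + 1) :
    safe (dat Q) h b ↔ b < 2 * Q.2.length ∧ b % 2 = h.getD (2 * Q.1.length) 0 / 2 := by
  unfold safe
  change (b < 4 + 2 * Q.2.length + 2 * Q.2.length * WW Q ∧ qval Q h.length b = true ∧
    ∀ i < h.length, qcf Q i (h.getD i 0) h.length b = false) ↔ _
  unfold qval qcf
  rw [if_neg (by omega), if_pos hl, decide_eq_true_eq]
  constructor
  · rintro ⟨-, h1, h2⟩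
    refine ⟨h1, ?_⟩
    have h3 := h2 (2 * Q.1.length) (by omega)
    rw [if_pos (by omega), Bool.and_eq_false_iff] at h3
    simpa [hl] using h3
  · rintro ⟨h1, h2⟩
    refine ⟨by omega, h1, fun i hi => ?_⟩
    rw [if_pos (by omega), Bool.and_eq_false_iff]
    by_cases h3 : i = 2 * Q.1.length
    · right
      rw [h3]
      simpa using h2
    · left
      simp only [decide_eq_false_iff_not]
      omega

theorem safe_lam {h : List ℕ} {b : ℕ} (hl : h.length = 2 * Q.1.length + 2) :
    safe (dat Q) h b ↔ b < 4 + 2 * Q.2.length + 2 * Q.2.length * WW Q ∧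
      b / (2 * Q.2.length) < (Q.2.getD (b % (2 * Q.2.length) / 2) []).length ∧
      b % (2 * Q.2.length) = h.getD (2 * Q.1.length + 1) 0 ∧
      (vstep Q (litb Q b).2 < 2 * Q.1.length → uv Q h (litb Q b).2 = (litb Q b).1) := by
  unfold safe
  change (b < 4 + 2 * Q.2.length + 2 * Q.2.length * WW Q ∧ qval Q h.length b = true ∧
    ∀ i < h.length, qcf Q i (h.getD i 0) h.length b = false) ↔ _
  unfold qval qcf uv
  rw [if_neg (by omega), if_neg (by omega), decide_eq_true_eq]
  refine and_congr_right fun _ => and_congr_right fun _ => ?_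
  constructor
  · intro h2
    constructor
    · have h3 := h2 (2 * Q.1.length + 1) (by omega)
      rw [if_neg (by omega)] at h3
      simpa [hl] using h3
    · intro h4
      have h3 := h2 (vstep Q (litb Q b).2) (by omega)
      rw [if_neg (by omega)] at h3
      simp only [hl, decide_true, Bool.true_and, Bool.or_eq_false_iff, h4] at h3
      have h5 := h3.2
      simpa using h5
  · rintro ⟨h2, h3⟩ i hi
    rw [if_neg (by omega)]
    simp only [hl, decide_true, Bool.true_and, Bool.or_eq_false_iff]
    constructor
    · by_cases h4 : i = 2 * Q.1.length + 1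
      · rw [h4]
        simpa using h2
      · simp [h4]
    · by_cases h4 : i < 2 * Q.1.length ∧ i = vstep Q (litb Q b).2
      · have h5 := h3 (by omega)
        rw [← h4.2] at h5
        have h6 : decide (decide (h.getD i 0 / 2 = 1) = (litb Q b).1) = true := by
          rw [decide_eq_true_eq]
          exact h5
        rw [h6]
        simp
      · by_cases h5 : i < 2 * Q.1.length
        · have h6 : i ≠ vstep Q (litb Q b).2 := fun h => h4 ⟨h5, h⟩
          simp [h6]
        · simp [h5]

/-- the values of the variables -/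
def uu (Q : QF) (h : List ℕ) (i : ℕ) : List Bool := (List.range i).map (uv Q h)

theorem vstep_lt {v i : ℕ} (h : v < i) : vstep Q v < 2 * i := by
  unfold vstep
  split_ifs <;> omega

theorem uv_append {h : List ℕ} {b v : ℕ} (h1 : vstep Q v < h.length) :
    uv Q (h ++ [b]) v = uv Q h v := by
  unfold uv
  rw [List.getD_append _ _ _ _ h1]

theorem uu_append {h : List ℕ} {b i : ℕ} (h1 : 2 * i ≤ h.length) :
    uu Q (h ++ [b]) i = uu Q h i := by
  unfold uu
  refine List.map_congr_left fun v hv => ?_
  rw [List.mem_range] at hv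
  exact uv_append (lt_of_lt_of_le (vstep_lt hv) h1)

theorem uu_getD {h : List ℕ} {i v : ℕ} (h1 : v < i) : (uu Q h i).getD v false = uv Q h v := by
  unfold uu
  rw [List.getD_eq_getElem?_getD, List.getElem?_map, List.getElem?_range h1]
  rfl

/-- The last step. -/
theorem win_last (hwf : QFwf Q) {h : List ℕ} (hl : h.length = 2 * Q.1.length + 2) {j s : ℕ}
    (hj : j < Q.2.length) (hs : s < 2) (hk : h.getD (2 * Q.1.length + 1) 0 = s + 2 * j) :
    (∃ b, safe (dat Q) h b) ↔
      (Q.2.getD j []).any (fun l => (uu Q h Q.1.length).getD l.2 false == l.1) = true := by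
  have hkm : (s + 2 * j) % (2 * Q.2.length) = s + 2 * j := Nat.mod_eq_of_lt (by omega)
  have hk2 : (s + 2 * j) / 2 = j := by omega
  rw [List.any_eq_true]
  constructor
  · rintro ⟨b, hb⟩
    rw [safe_lam hl, hk] at hb
    obtain ⟨-, h1, h2, h3⟩ := hb
    rw [h2, hk2] at h1
    have h4 : litb Q b ∈ Q.2.getD j [] := by
      unfold litb
      rw [h2, hk2, List.getD_eq_getElem _ _ h1]
      exact List.getElem_mem h1
    refine ⟨litb Q b, h4, ?_⟩
    have h5 : (litb Q b).2 < Q.1.length := by
      refine hwf (Q.2.getD j []) ?_ _ h4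
      rw [List.getD_eq_getElem _ _ hj]
      exact List.getElem_mem hj
    rw [uu_getD h5, h3 (vstep_lt h5)]
    simp
  · rintro ⟨l, hl1, hl2⟩
    obtain ⟨p, hp, rfl⟩ := List.mem_iff_getElem.mp hl1
    have hm : 0 < 2 * Q.2.length := by omega
    have hb1 : (s + 2 * j + 2 * Q.2.length * p) % (2 * Q.2.length) = s + 2 * j := by
      rw [Nat.add_mul_mod_self_left, hkm]
    have hb2 : (s + 2 * j + 2 * Q.2.length * p) / (2 * Q.2.length) = p := by
      rw [Nat.add_mul_div_left _ _ hm, Nat.div_eq_of_lt (by omega), Nat.zero_add]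
    have hlit : litb Q (s + 2 * j + 2 * Q.2.length * p) = (Q.2.getD j [])[p] := by
      unfold litb
      rw [hb1, hb2, hk2, List.getD_eq_getElem _ _ hp]
    refine ⟨s + 2 * j + 2 * Q.2.length * p, ?_⟩
    rw [safe_lam hl, hb1, hb2, hk2, hk, hlit]
    refine ⟨?_, hp, rfl, fun _ => ?_⟩
    · have h1 : (Q.2.getD j []).length ≤ WW Q := by
        unfold WW
        refine List.single_le_sum (fun _ _ => Nat.zero_le _) _ ?_
        rw [List.mem_map]
        refine ⟨_, ?_, rfl⟩
        rw [List.getD_eq_getElem _ _ hj]
        exact List.getElem_mem hj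
      have h2 : 2 * Q.2.length * (p + 1) ≤ 2 * Q.2.length * WW Q := Nat.mul_le_mul_left _ (by omega)
      rw [Nat.mul_succ] at h2
      omega
    · have h5 : ((Q.2.getD j [])[p]).2 < Q.1.length := by
        refine hwf (Q.2.getD j []) ?_ _ hl1
        rw [List.getD_eq_getElem _ _ hj]
        exact List.getElem_mem hj
      rw [uu_getD h5] at hl2
      simpa using hl2

/-- The choice of the clause. -/
theorem win_two (hwf : QFwf Q) {h : List ℕ} (hl : h.length = 2 * Q.1.length + 1) (hs : sm h) :
    win (dat Q) 2 h ↔ ¬ evc (uu Q h Q.1.length) Q.2 = true := by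
  have hs2 : h.getD (2 * Q.1.length) 0 / 2 < 2 := by
    have := hs (2 * Q.1.length) (by omega)
    omega
  have key : ∀ j < Q.2.length, ((∃ b, safe (dat Q)
      (h ++ [h.getD (2 * Q.1.length) 0 / 2 + 2 * j]) b) ↔
      (Q.2.getD j []).any (fun l => (uu Q h Q.1.length).getD l.2 false == l.1) = true) := by
    intro j hj
    have h1 := win_last hwf (h := h ++ [h.getD (2 * Q.1.length) 0 / 2 + 2 * j])
      (by rw [List.length_append, List.length_singleton, hl]) hj hs2 (by
        rw [← hl, List.getD_append_right _ _ _ _ le_rfl]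
        simp)
    rw [uu_append (by omega)] at h1
    exact h1
  unfold evc
  rw [List.all_eq_true]
  constructor
  · rintro ⟨b, hb, hw⟩ hall
    rw [safe_kap hl] at hb
    have hj : b / 2 < Q.2.length := by omega
    have hbe : b = h.getD (2 * Q.1.length) 0 / 2 + 2 * (b / 2) := by omega
    refine hw ?_
    have h1 := hall (Q.2.getD (b / 2) []) (by
      rw [List.getD_eq_getElem _ _ hj]
      exact List.getElem_mem hj)
    obtain ⟨b', hb'⟩ := (key (b / 2) hj).2 h1
    rw [← hbe] at hb'
    exact ⟨b', hb', fun h => h.elim⟩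
  · intro hall
    push Not at hall
    obtain ⟨c, hc, hf⟩ := hall
    obtain ⟨j, hj, rfl⟩ := List.mem_iff_getElem.mp hc
    refine ⟨h.getD (2 * Q.1.length) 0 / 2 + 2 * j, (safe_kap hl).2 ⟨by omega, by omega⟩, ?_⟩
    rintro ⟨b', hb', -⟩
    have h1 := (key j hj).1 ⟨b', hb'⟩
    rw [List.getD_eq_getElem _ _ hj] at h1
    exact hf h1

theorem safe_ex {h : List ℕ} (hl : h.length < 2 * Q.1.length + 1) (hs : sm h) {v : ℕ}
    (hv : v < 2) : ∃ b, safe (dat Q) h b ∧ b / 2 = v := by
  refine ⟨(if h.length = 0 then 0 else h.getD (h.length - 1) 0 / 2) + 2 * v, ?_, ?_⟩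
  · rw [safe_small hl]
    constructor
    · split_ifs with h1
      · omega
      · have := hs (h.length - 1) (by omega)
        omega
    · intro i hi
      rw [if_neg (by omega)]
      have h2 : h.length - 1 = i := by omega
      have := hs i (by omega)
      rw [h2]
      omega
  · split_ifs with h1
    · omega
    · have := hs (h.length - 1) (by omega)
      omega

/-- The dummy step. -/
theorem win_three (hwf : QFwf Q) {h : List ℕ} (hl : h.length = 2 * Q.1.length) (hs : sm h) :
    win (dat Q) 3 h ↔ evc (uu Q h Q.1.length) Q.2 = true := by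
  have key : ∀ b, safe (dat Q) h b → (¬ win (dat Q) 2 (h ++ [b]) ↔
      evc (uu Q h Q.1.length) Q.2 = true) := by
    intro b hb
    rw [safe_small (by omega)] at hb
    rw [win_two hwf (by rw [List.length_append, List.length_singleton, hl]) (sm_append hs hb.1),
      uu_append (by omega), not_not]
  constructor
  · rintro ⟨b, hb, hw⟩
    exact (key b hb).1 hw
  · intro hv
    obtain ⟨b, hb, -⟩ := safe_ex (Q := Q) (h := h) (v := 0) (by omega) hs (by omega)
    exact ⟨b, hb, (key b hb).2 hv⟩

theorem evq_cons (q : Bool) (qs : List Bool) (φ : List Bool → Bool) :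
    evq (q :: qs) φ = true ↔ if q = true then
      (∀ b, evq qs (fun u => φ (b :: u)) = true) else ∃ b, evq qs (fun u => φ (b :: u)) = true := by
  cases q
  · simp [evq]
  · simp [evq]

theorem win_all (hwf : QFwf Q) : ∀ (k i : ℕ), i + k = Q.1.length → ∀ h : List ℕ,
    h.length = 2 * i → sm h → (win (dat Q) (2 * k + 3) h ↔
      evq (Q.1.drop i) (fun v => evc (uu Q h i ++ v) Q.2) = true) := by
  intro k
  induction k with
  | zero =>
    intro i hi h hl hs
    have h0 : i = Q.1.length := by omega
    subst h0
    rw [List.drop_length, Nat.mul_zero, Nat.zero_add, win_three hwf hl hs]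
    show _ ↔ evc (uu Q h Q.1.length ++ []) Q.2 = true
    rw [List.append_nil]
  | succ k ih =>
    intro i hi h hl hs
    have hi' : i < Q.1.length := by omega
    have hdrop : Q.1.drop i = Q.1.getD i false :: Q.1.drop (i + 1) := by
      rw [List.getD_eq_getElem _ _ hi']
      exact List.drop_eq_getElem_cons hi'
    have key : ∀ b0, safe (dat Q) h b0 → ∀ b1, safe (dat Q) (h ++ [b0]) b1 →
        (win (dat Q) (2 * k + 3) (h ++ [b0] ++ [b1]) ↔ evq (Q.1.drop (i + 1)) (fun v =>
          evc (uu Q h i ++ (decide ((if Q.1.getD i false = true then b1 else b0) / 2 = 1) :: v)) Q.2)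
          = true) := by
      intro b0 h0 b1 h1
      rw [safe_small (by omega)] at h0
      rw [safe_small (by rw [List.length_append, List.length_singleton]; omega)] at h1
      have hl2 : (h ++ [b0] ++ [b1]).length = 2 * (i + 1) := by
        rw [List.length_append, List.length_append, List.length_singleton, List.length_singleton]
        omega
      rw [ih (i + 1) (by omega) (h ++ [b0] ++ [b1]) hl2 (sm_append (sm_append hs h0.1) h1.1)]
      have h2 : uu Q (h ++ [b0] ++ [b1]) (i + 1) = uu Q h i ++
          [decide ((if Q.1.getD i false = true then b1 else b0) / 2 = 1)] := by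
        unfold uu
        rw [List.range_succ, List.map_append, List.map_singleton]
        congr 1
        · refine List.map_congr_left fun v hv => ?_
          rw [List.mem_range] at hv
          have h3 := vstep_lt (Q := Q) hv
          rw [uv_append (by rw [List.length_append, List.length_singleton]; omega),
            uv_append (by omega)]
        · unfold uv vstep
          split_ifs with h3
          · rw [List.getD_append_right _ _ _ _ (by
              rw [List.length_append, List.length_singleton]; omega)]
            rw [List.length_append, List.length_singleton, hl]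
            simp
          · rw [List.append_assoc, List.getD_append_right _ _ _ _ (by omega), hl]
            simp
      rw [h2]
      simp only [List.append_assoc, List.singleton_append]
    rw [hdrop, evq_cons]
    have hr : 2 * (k + 1) + 3 = 2 * k + 3 + 1 + 1 := by omega
    rw [hr]
    have hw1 : win (dat Q) (2 * k + 3 + 1 + 1) h ↔ ∃ b0, safe (dat Q) h b0 ∧
        ∀ b1, safe (dat Q) (h ++ [b0]) b1 → win (dat Q) (2 * k + 3) (h ++ [b0] ++ [b1]) := by
      show (∃ b0, safe (dat Q) h b0 ∧ ¬ (∃ b1, safe (dat Q) (h ++ [b0]) b1 ∧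
        ¬ win (dat Q) (2 * k + 3) (h ++ [b0] ++ [b1]))) ↔ _
      push Not
      rfl
    rw [hw1]
    have hsm : ∀ b0, safe (dat Q) h b0 → sm (h ++ [b0]) := fun b0 h0 => by
      rw [safe_small (by omega)] at h0
      exact sm_append hs h0.1
    have hlen : ∀ b0 : ℕ, (h ++ [b0]).length < 2 * Q.1.length + 1 := fun b0 => by
      rw [List.length_append, List.length_singleton]
      omega
    constructor
    · rintro ⟨b0, h0, hall⟩
      split_ifs with hq
      · intro b
        obtain ⟨b1, h1, h2⟩ := safe_ex (Q := Q) (h := h ++ [b0]) (v := if b = true then 1 else 0)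
          (hlen b0) (hsm b0 h0) (by split_ifs <;> omega)
        have h3 := (key b0 h0 b1 h1).1 (hall b1 h1)
        rw [if_pos hq, h2] at h3
        cases b <;> simpa using h3
      · refine ⟨decide (b0 / 2 = 1), ?_⟩
        obtain ⟨b1, h1, -⟩ := safe_ex (Q := Q) (h := h ++ [b0]) (v := 0) (hlen b0) (hsm b0 h0)
          (by omega)
        have h3 := (key b0 h0 b1 h1).1 (hall b1 h1)
        rw [if_neg hq] at h3
        exact h3
    · intro hv
      split_ifs at hv with hq
      · obtain ⟨b0, h0, -⟩ := safe_ex (Q := Q) (h := h) (v := 0) (by omega) hs (by omega)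
        refine ⟨b0, h0, fun b1 h1 => (key b0 h0 b1 h1).2 ?_⟩
        rw [if_pos hq]
        exact hv _
      · obtain ⟨b, hb⟩ := hv
        obtain ⟨b0, h0, h2⟩ := safe_ex (Q := Q) (h := h) (v := if b = true then 1 else 0)
          (by omega) hs (by split_ifs <;> omega)
        refine ⟨b0, h0, fun b1 h1 => (key b0 h0 b1 h1).2 ?_⟩
        rw [if_neg hq, h2]
        cases b <;> simpa using hb

/-- The value of the formula is the outcome of the game. -/
theorem win_iff (hwf : QFwf Q) :
    win (dat Q) (2 * Q.1.length + 3) [] ↔ evq Q.1 (fun v => evc v Q.2) = true := by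
  have h1 := win_all hwf Q.1.length 0 (by omega) [] (by simp) (fun i hi => absurd hi (by simp))
  rw [h1]
  rfl

/-- the outcome of the pair game -/
theorem game_iff (hwf : QFwf Q) (w : Bool) :
    Pool.Agent.NPC.ANN.Forces (PMv (dat Q)) w (true, ∅, fun _ => 0) ↔
      (evq Q.1 (fun v => evc v Q.2) = w) := by
  have h1 := outcome (dat_loc Q) (dat_att Q) (2 * Q.1.length + 3) [] (by
    show ([] : List ℕ).length + _ = 2 * Q.1.length + 3
    simp)
  rw [win_iff hwf] at h1
  change (_ → Pool.Agent.NPC.ANN.Forces (PMv (dat Q)) true (true, ∅, fun _ => 0)) ∧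
    (_ → Pool.Agent.NPC.ANN.Forces (PMv (dat Q)) false (true, ∅, fun _ => 0)) at h1
  cases w with
  | true =>
    constructor
    · intro h
      by_contra h2
      exact (h1.2 h2).not_both h
    · exact h1.1
  | false =>
    constructor
    · intro h
      by_contra h2
      exact (h1.1 (by simpa using h2)).not_both h
    · intro h
      exact h1.2 (by rw [h]; decide)

end Pool.Agent.NPC.Q328.PX
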