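import Pool.Agent.Q328.PX.Main

/-!
# The outcome of the game
-/

set_option autoImplicit false

namespace Pool.Agent.NPC.Q328.PX

open Finset
open Pool.Agent.NPC.ANN (Forces)

variable {I : Dat}

/-- A free move is a good answer if the opponent has fallen behind. -/
theorem dev1 (hL : Loc I) {q : Bool} {t : ℕ} {D : Finset (ℕ × ℕ)} {a : Bool → ℕ}
    (hP : ∀ c ∈ D, own c.1 = (!q) → c.1 < t) (hcov : ∀ x < t, ∃ c ∈ D, c.1 = x)
    (hinj : ∀ c1 ∈ D, ∀ c2 ∈ D, own c1.1 = (!q) → c1.1 = c2.1 → c1 = c2) (hT : ∀ c ∈ D, c.1 < I.T)
    (ha : a q + I.T + 1 ≤ a (!q)) : Forces (PMv I) true (!q, D, a) := by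
  refine .win (PMv.bot (by omega)) ?_
  rw [Bool.not_not]
  refine ahead (R := fun _ => 1) ?_ ?_ ?_
  · intro c _ ho
    have h1 := gain_le hL (q := q) (D := D.filter fun c' => own c'.1 = !q) (c := c)
      (fun c1 h1 c2 h2 h => hinj _ (Finset.mem_filter.mp h1).1 _ (Finset.mem_filter.mp h2).1
        (Finset.mem_filter.mp h1).2 h)
      (fun c1 h1 => hT _ (Finset.mem_filter.mp h1).1) (fun c1 h1 => (Finset.mem_filter.mp h1).2) ho
    unfold Dat.EE
    omega
  · intro c _ ho hfree
    have h0 : t ≤ c.1 := by
      by_contra hlt
      obtain ⟨c', hc', he⟩ := hcov c.1 (by omega)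
      exact hfree c' hc' he
    rw [gain_zero ho]
    intro c' hc'
    rw [Finset.mem_filter] at hc'
    exact lt_of_lt_of_le (hP _ hc'.1 hc'.2) h0
  · rw [Finset.sum_const, smul_eq_mul, mul_one]
    have h1 : (fr I q D).card ≤ I.T := by
      unfold fr
      exact (Finset.card_filter_le _ _).trans (by rw [Finset.card_range])
    rw [Function.update_of_ne (by cases q <;> simp), Function.update_self]
    omega

/-- the items are determined by their steps -/
theorem items_inj {h : List ℕ} : ∀ c1 ∈ items h, ∀ c2 ∈ items h, c1.1 = c2.1 → c1 = c2 := by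
  intro c1 h1 c2 h2 h3
  have h4 := mem_items.mp h1
  have h5 := mem_items.mp h2
  exact Prod.ext h3 (by rw [h4.2, h5.2, h3])

theorem items_cov {h : List ℕ} : ∀ x < h.length, ∃ c ∈ items h, c.1 = x := fun x hx =>
  ⟨(x, h.getD x 0), mem_items.mpr ⟨hx, rfl⟩, rfl⟩

/-- An item of a later step is answered by an attack from the step before. -/
theorem early (hL : Loc I) (hA : Att I) {q : Bool} {h : List ℕ} {c : ℕ × ℕ} {a : Bool → ℕ}
    (hgt : h.length < c.1) (hge : ∀ i < h.length, i + 2 ≠ c.1) (hc : I.ok c) (ho : own c.1 = q)
    (ha : a q ≤ 1) : Forces (PMv I) true (!q, insert c (items h), a) := by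
  have hcov := items_cov (h := h)
  have hin := items_inj (h := h)
  obtain ⟨o, haok, hacf⟩ := hA c.1 c.2 (by omega) hc
  have ho1 : own (c.1 - 1) = !q := by
    have h1 := own_succ (c.1 - 1)
    rw [Nat.sub_add_cancel (by omega), ho] at h1
    rw [h1, Bool.not_not]
  have hn1 : (c.1 - 1, o) ∉ insert c (items h) := by
    intro hm
    rcases Finset.mem_insert.mp hm with h1 | h1
    · have : c.1 - 1 = c.1 := congrArg Prod.fst h1
      omega
    · have := (mem_items.mp h1).1
      change c.1 - 1 < h.length at this
      omega
  refine .win (PMv.top haok ho1 hn1) ?_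
  rw [Bool.not_not]
  have hg2 : gain I q (c.1 - 1, o) (insert c (items h)) = 0 := by
    refine Finset.sum_eq_zero fun c' hc' => ?_
    rcases Finset.mem_insert.mp hc' with rfl | hc'
    · unfold Dat.wt
      rw [if_neg (by show ¬ c'.1 - 1 = c'.1; omega),
        if_pos (by show c'.1 - 1 < c'.1; omega), if_neg]
      rintro ⟨-, h5⟩
      rw [ho] at h5
      revert h5
      cases q <;> simp
    · have h6 := (mem_items.mp hc').1
      unfold Dat.wt
      rw [if_neg (by show ¬ c.1 - 1 = c'.1; omega),
        if_neg (by show ¬ c.1 - 1 < c'.1; omega), if_neg]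
      rintro ⟨h5, -⟩
      have h7 := hL _ _ _ _ h5
      have h8 := hc.1
      have h9 := hge c'.1 h6
      simp only at h7
      omega
  have hg3 : I.U * c.1 ≤ gain I (!q) (c.1 - 1, o) (insert c (items h)) := by
    have h5 : I.wt (!q) (c.1 - 1, o) c = I.U * c.1 := by
      unfold Dat.wt
      rw [if_neg (by show ¬ c.1 - 1 = c.1; omega),
        if_pos (by show c.1 - 1 < c.1; omega), if_pos ⟨hacf, by rw [ho]⟩]
    rw [← h5]
    exact Finset.single_le_sum (f := fun c' => I.wt (!q) (c.1 - 1, o) c')
      (fun _ _ => Nat.zero_le _) (Finset.mem_insert_self _ _)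
  have hPm : ∀ c' ∈ insert (c.1 - 1, o) (insert c (items h)), own c'.1 = (!q) →
      c' = (c.1 - 1, o) ∨ c' ∈ items h := by
    intro c' hc' ho'
    rcases Finset.mem_insert.mp hc' with h1 | h1
    · exact Or.inl h1
    · rcases Finset.mem_insert.mp h1 with rfl | h1
      · exact absurd ho' (not_own ho)
      · exact Or.inr h1
  refine ahead (R := fun x => 1 + if x + 2 = c.1 then I.U * (c.1 - 1) else 0) ?_ ?_ ?_
  · intro c2 _ ho2
    have h1 := gain_le hL (q := q)
      (D := (insert (c.1 - 1, o) (insert c (items h))).filter fun c' => own c'.1 = !q)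
      (c := c2)
      (fun c3 h3 c4 h4 h34 => by
        rw [Finset.mem_filter] at h3 h4
        rcases hPm _ h3.1 h3.2 with e3 | e3 <;> rcases hPm _ h4.1 h4.2 with e4 | e4
        · rw [e3, e4]
        · have := (mem_items.mp e4).1
          rw [e3] at h34
          change c.1 - 1 = c4.1 at h34
          omega
        · have := (mem_items.mp e3).1
          rw [e4] at h34
          change c3.1 = c.1 - 1 at h34
          omega
        · exact hin _ e3 _ e4 h34)
      (fun c3 h3 => by
        rw [Finset.mem_filter] at h3
        have h9 := hc.1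
        rcases hPm _ h3.1 h3.2 with e3 | e3
        · rw [e3]
          show c.1 - 1 < I.T
          omega
        · have := (mem_items.mp e3).1
          omega)
      (fun c1 h1 => (Finset.mem_filter.mp h1).2) ho2
    unfold Dat.EE
    omega
  · intro c2 hc2 ho2 hfree
    have hge2 : h.length ≤ c2.1 := by
      by_contra hlt
      obtain ⟨c', hc', he⟩ := hcov c2.1 (by omega)
      exact hfree c' (Finset.mem_insert_of_mem (Finset.mem_insert_of_mem hc')) he
    have h9 := hc.1
    have h1 : gain I q c2 ((insert (c.1 - 1, o) (insert c (items h))).filter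
        fun c' => own c'.1 = !q) ≤ gain I q c2 {(c.1 - 1, o)} := by
      unfold gain
      have h2 : ∀ c' ∈ (insert (c.1 - 1, o) (insert c (items h))).filter
          (fun c' => own c'.1 = !q), c' ∉ ({(c.1 - 1, o)} : Finset (ℕ × ℕ)) →
          I.wt q c2 c' = 0 := by
        intro c' hc' hn'
        rw [Finset.mem_filter] at hc'
        rw [Finset.mem_singleton] at hn'
        rcases hPm _ hc'.1 hc'.2 with e3 | e3
        · exact absurd e3 hn'
        · have h6 := (mem_items.mp e3).1
          unfold Dat.wt
          rw [if_neg (by omega), if_neg (by omega), if_neg]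
          rintro ⟨-, h5⟩
          rw [ho2] at h5
          revert h5
          cases q <;> simp
      rw [Finset.sum_subset (s₁ := (({(c.1 - 1, o)} : Finset (ℕ × ℕ))))
        (s₂ := (insert (c.1 - 1, o) (insert c (items h))).filter fun c' => own c'.1 = !q)
        (fun x hx => by
          rw [Finset.mem_singleton] at hx
          rw [hx, Finset.mem_filter]
          exact ⟨Finset.mem_insert_self _ _, ho1⟩) h2]
    refine (Nat.add_le_add_right h1 1).trans ?_
    show gain I q c2 {(c.1 - 1, o)} + 1 ≤ 1 + if c2.1 + 2 = c.1 then I.U * (c.1 - 1) else 0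
    rw [Nat.add_comm]
    refine Nat.add_le_add_left ?_ 1
    unfold gain
    rw [Finset.sum_singleton]
    unfold Dat.wt
    have hne : c2.1 ≠ c.1 - 1 := by
      intro he
      rw [he] at ho2
      exact not_own ho2 ho1
    rw [if_neg (by show ¬ c2.1 = c.1 - 1; exact hne)]
    by_cases hlt2 : c2.1 < c.1 - 1
    · rw [if_pos (by show c2.1 < c.1 - 1; exact hlt2)]
      by_cases h5 : I.cf c2.1 c2.2 (c.1 - 1) o = true ∧ q = !own (c.1 - 1)
      · have h6 := hL _ _ _ _ h5.1
        rw [if_pos (show I.cf c2.1 c2.2 (c.1 - 1, o).1 (c.1 - 1, o).2 = true ∧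
          q = !own (c.1 - 1, o).1 from h5), if_pos (by omega)]
      · rw [if_neg (show ¬ (I.cf c2.1 c2.2 (c.1 - 1, o).1 (c.1 - 1, o).2 = true ∧
          q = !own (c.1 - 1, o).1) from h5)]
        exact Nat.zero_le _
    · rw [if_neg (by show ¬ c2.1 < c.1 - 1; exact hlt2), if_neg]
      · exact Nat.zero_le _
      · rintro ⟨-, h5⟩
        rw [ho2] at h5
        revert h5
        cases q <;> simp
  · show a q + gain I q (c.1 - 1, o) (insert c (items h)) +
      ∑ x ∈ fr I q (insert (c.1 - 1, o) (insert c (items h))),
        (1 + if x + 2 = c.1 then I.U * (c.1 - 1) else 0) ≤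
      a (!q) + gain I (!q) (c.1 - 1, o) (insert c (items h))
    rw [hg2, Finset.sum_add_distrib, Finset.sum_const, smul_eq_mul, mul_one]
    have h1 : (fr I q (insert (c.1 - 1, o) (insert c (items h)))).card ≤ I.T := by
      unfold fr
      exact (Finset.card_filter_le _ _).trans (by rw [Finset.card_range])
    have h2 : (∑ x ∈ fr I q (insert (c.1 - 1, o) (insert c (items h))),
        if x + 2 = c.1 then I.U * (c.1 - 1) else 0) ≤ I.U * (c.1 - 1) := by
      have h20 : fr I q (insert (c.1 - 1, o) (insert c (items h))) ⊆ range I.T :=
        Finset.filter_subset _ _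
      refine (Finset.sum_le_sum_of_subset (f := fun x => if x + 2 = c.1 then
        I.U * (c.1 - 1) else 0) h20).trans ?_
      by_cases h2c : c.1 < 2
      · rw [Finset.sum_eq_zero fun x _ => if_neg (by omega)]
        exact Nat.zero_le _
      have h3 : ∀ x ∈ range I.T, (if x + 2 = c.1 then I.U * (c.1 - 1) else 0) =
          if c.1 - 2 = x then I.U * (c.1 - 1) else 0 := by
        intro x _
        by_cases h : x + 2 = c.1
        · rw [if_pos h, if_pos (by omega)]
        · rw [if_neg h, if_neg (by omega)]
      rw [Finset.sum_congr rfl h3, Finset.sum_ite_eq]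
      split_ifs
      · exact le_rfl
      · exact Nat.zero_le _
    have h3 : I.U * c.1 = I.U * (c.1 - 1) + I.U := by
      rw [← Nat.mul_succ]
      congr 1
      omega
    have h8 : I.U = I.T + 1 := rfl
    omega

/-- Every other move than a permitted option of the current step loses. -/
theorem deviate (hL : Loc I) (hA : Att I) {q : Bool} {h : List ℕ} {c : ℕ × ℕ} {a : Bool → ℕ}
    (hT : h.length ≤ I.T) (hq : own h.length = q) (hc : I.ok c) (ho : own c.1 = q)
    (hD : c ∉ items h) (ha : a q = 0) (hs : ¬ (c.1 = h.length ∧ safe I h c.2)) :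
    Forces (PMv I) true (!q, insert c (items h), fun Y => a Y + gain I Y c (items h)) := by
  have hcov := items_cov (h := h)
  have hin := items_inj (h := h)
  have hpar : c.1 % 2 = h.length % 2 := own_eq_iff.mp (ho.trans hq.symm)
  have hQ1 : ∀ c' ∈ insert c (items h), own c'.1 = (!q) → c'.1 < h.length := by
    intro c' hc' ho'
    rcases Finset.mem_insert.mp hc' with rfl | hc'
    · exact absurd ho' (not_own ho)
    · exact (mem_items.mp hc').1
  have hQ2 : ∀ x < h.length, ∃ c' ∈ insert c (items h), c'.1 = x := by
    intro x hx
    obtain ⟨c', hc', he⟩ := hcov x hx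
    exact ⟨c', Finset.mem_insert_of_mem hc', he⟩
  have hQ3 : ∀ c1 ∈ insert c (items h), ∀ c2 ∈ insert c (items h), own c1.1 = (!q) →
      c1.1 = c2.1 → c1 = c2 := by
    intro c1 h1 c2 h2 ho1 h12
    have ho2 : own c2.1 = !q := by rw [← h12]; exact ho1
    rcases Finset.mem_insert.mp h1 with rfl | h1
    · exact absurd ho1 (not_own ho)
    · rcases Finset.mem_insert.mp h2 with rfl | h2
      · exact absurd ho2 (not_own ho)
      · exact hin _ h1 _ h2 h12
  have hQ4 : ∀ c' ∈ insert c (items h), c'.1 < I.T := by
    intro c' hc'
    rcases Finset.mem_insert.mp hc' with rfl | hc'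
    · exact hc.1
    · have := (mem_items.mp hc').1
      omega
  rcases Nat.lt_trichotomy c.1 h.length with hlt | heq | hgt
  · -- a second option at an old step
    refine dev1 hL (t := h.length) hQ1 hQ2 hQ3 hQ4 ?_
    show a q + gain I q c (items h) + I.T + 1 ≤ a (!q) + gain I (!q) c (items h)
    have h1 : gain I q c (items h) ≤ 2 * (I.U * I.T) := by
      rw [gain_own ho]
      exact gain_le hL
        (fun c1 h1 c2 h2 h3 => hin _ (Finset.mem_filter.mp h1).1 _
          (Finset.mem_filter.mp h2).1 h3)
        (fun c1 h1 => by
          have := (mem_items.mp (Finset.mem_filter.mp h1).1).1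
          omega)
        (fun c1 h1 => (Finset.mem_filter.mp h1).2) ho
    have h2 : I.EE ≤ gain I (!q) c (items h) := by
      obtain ⟨c', hc', he⟩ := hcov c.1 hlt
      have hne : c.2 ≠ c'.2 := fun h => hD (by
        rw [show c = c' from Prod.ext he.symm h]
        exact hc')
      have h5 : I.wt (!q) c c' = I.EE := by
        unfold Dat.wt
        rw [if_pos he.symm, if_pos ⟨hne, by rw [ho]⟩]
      rw [← h5]
      exact Finset.single_le_sum (f := fun c' => I.wt (!q) c c') (fun _ _ => Nat.zero_le _) hc'
    unfold Dat.EE at h2
    omega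
  · -- a forbidden option
    obtain ⟨i, hi, hcf⟩ : ∃ i < h.length, I.cf i (h.getD i 0) h.length c.2 = true := by
      by_contra hno
      push Not at hno
      refine hs ⟨heq, hc.2.1, ?_, fun i hi => ?_⟩
      · rw [← heq]
        exact hc.2.2
      · exact Bool.eq_false_iff.mpr (hno i hi)
    refine dev1 hL (t := h.length) hQ1 hQ2 hQ3 hQ4 ?_
    show a q + gain I q c (items h) + I.T + 1 ≤ a (!q) + gain I (!q) c (items h)
    rw [gain_zero ho fun c' hc' => by rw [heq]; exact (mem_items.mp hc').1]
    have h5 : I.wt (!q) c (i, h.getD i 0) = I.U * h.length := by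
      unfold Dat.wt
      rw [if_neg (by show ¬ c.1 = i; omega), if_neg (by show ¬ c.1 < i; omega), if_pos, heq]
      refine ⟨?_, by rw [ho]⟩
      rw [heq]
      exact hcf
    have h6 : I.wt (!q) c (i, h.getD i 0) ≤ gain I (!q) c (items h) :=
      Finset.single_le_sum (f := fun c' => I.wt (!q) c c') (fun _ _ => Nat.zero_le _)
        (mem_items.mpr ⟨hi, rfl⟩)
    rw [h5] at h6
    have h7 : I.U * 1 ≤ I.U * h.length := Nat.mul_le_mul_left _ (by omega)
    have h8 : I.U = I.T + 1 := rfl
    omega
  · -- a later step
    refine early hL hA hgt (fun i hi => by omega) hc ho ?_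
    show a q + gain I q c (items h) ≤ 1
    rw [gain_zero ho fun c' hc' => by have := (mem_items.mp hc').1; omega]
    omega

/-- If there is no step left, the player to move loses. -/
theorem done (hL : Loc I) {q : Bool} {h : List ℕ} {a : Bool → ℕ} (hT : h.length ≤ I.T)
    (hno : ∀ c, I.ok c → own c.1 = q → c.1 < h.length) (ha : a q ≤ a (!q)) :
    Forces (PMv I) false (q, items h, a) := by
  refine ahead (R := fun _ => 0) ?_ ?_ ?_
  · intro c _ ho
    have h1 := gain_le hL (q := q)
      (D := (items h).filter fun c' => own c'.1 = !q) (c := c)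
      (fun c1 h1 c2 h2 h3 => items_inj _ (Finset.mem_filter.mp h1).1 _
        (Finset.mem_filter.mp h2).1 h3)
      (fun c1 h1 => by
        have := (mem_items.mp (Finset.mem_filter.mp h1).1).1
        omega)
      (fun c1 h1 => (Finset.mem_filter.mp h1).2) ho
    unfold Dat.EE
    omega
  · intro c hc ho hfree
    obtain ⟨c', hc', he⟩ := items_cov c.1 (hno c hc ho)
    exact absurd he (hfree c' hc')
  · rw [Finset.sum_const_zero, Nat.add_zero]
    exact ha

/-- The move to the next step. -/
theorem step_state {h : List ℕ} {b : ℕ} (hs : safe I h b) (a : Bool → ℕ) :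
    ((!own h.length, insert (h.length, b) (items h),
      fun Y => a Y + gain I Y (h.length, b) (items h)) : PS) =
    (own (h ++ [b]).length, items (h ++ [b]), a) := by
  rw [items_append, List.length_append, List.length_singleton, own_succ]
  refine Prod.ext rfl (Prod.ext rfl ?_)
  funext Y
  show a Y + gain I Y (h.length, b) (items h) = a Y
  have h0 : gain I Y (h.length, b) (items h) = 0 := by
    refine Finset.sum_eq_zero fun c' hc' => ?_
    rw [mem_items] at hc'
    unfold Dat.wt
    rw [if_neg (by show ¬ h.length = c'.1; omega), if_neg (by show ¬ h.length < c'.1; omega),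
      if_neg]
    rintro ⟨h5, -⟩
    rw [hc'.2] at h5
    change I.cf c'.1 (h.getD c'.1 0) h.length b = true at h5
    rw [hs.2.2 _ hc'.1] at h5
    exact absurd h5 (by decide)
  rw [h0, Nat.add_zero]

/-- **Both players have to make the steps in their order.** -/
theorem outcome (hL : Loc I) (hA : Att I) : ∀ (n : ℕ) (h : List ℕ), h.length + n = I.T →
    (win I n h → Forces (PMv I) true (own h.length, items h, fun _ => 0)) ∧
    (¬ win I n h → Forces (PMv I) false (own h.length, items h, fun _ => 0)) := by
  intro n
  induction n with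
  | zero =>
    intro h hn
    exact ⟨fun hw => hw.elim, fun _ => done hL (by omega) (fun c hc _ => by
      have := hc.1
      omega) le_rfl⟩
  | succ n ih =>
    intro h hn
    constructor
    · rintro ⟨b, hs, hw⟩
      refine .win (PMv.top (c := (h.length, b)) ⟨by show h.length < I.T; omega, hs.1, hs.2.1⟩ rfl
        fun hm => ?_) ?_
      · have := (mem_items.mp hm).1
        exact absurd this (by simp)
      · rw [step_state hs (fun _ => 0)]
        exact (ih (h ++ [b]) (by rw [List.length_append, List.length_singleton]; omega)).2 hw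
    · intro hw
      refine .lose fun s' hs' => ?_
      generalize hq : own h.length = q at hs'
      cases hs' with
      | bot h0 => exact absurd h0 (by simp)
      | @top _ _ _ c hc ho hD =>
        by_cases hs : c.1 = h.length ∧ safe I h c.2
        · have hc' : c = (h.length, c.2) := Prod.ext hs.1 rfl
          have hwin : win I n (h ++ [c.2]) := by
            by_contra hno
            exact hw ⟨c.2, hs.2, hno⟩
          have h1 := (ih (h ++ [c.2])
            (by rw [List.length_append, List.length_singleton]; omega)).1 hwin
          rw [← step_state hs.2 (fun _ => 0), hq, ← hc'] at h1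
          exact h1
        · exact deviate hL hA (by omega) hq hc ho hD rfl hs

/-- reachable lists of options -/
inductive Rch (I : Dat) : List ℕ → Prop
  | nil : Rch I []
  | snoc {h : List ℕ} {b : ℕ} (hh : Rch I h) (hs : safe I h b) : Rch I (h ++ [b])

/-- one free move of `false` -/
def one (Y : Bool) : ℕ := if Y = true then 0 else 1

/-- If `false` can always choose an option or `true` has no further options, then the first player
`true` does not win if `false` has an additional free move. -/
theorem not_more (hL : Loc I) (hA : Att I)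
    (hC : ∀ h, Rch I h → own h.length = false → h.length < I.T →
      (∃ b, safe I h b) ∨ ∀ c, I.ok c → own c.1 = true → c.1 < h.length) :
    ∀ (n : ℕ) (h : List ℕ), Rch I h → h.length + n = I.T →
      (own h.length = true → Forces (PMv I) false (true, items h, one)) ∧
      (own h.length = false → Forces (PMv I) true (false, items h, one)) := by
  have hdn : ∀ h : List ℕ, h.length ≤ I.T → (∀ c, I.ok c → own c.1 = true → c.1 < h.length) →
      Forces (PMv I) true (false, items h, one) := by
    intro h hT hno
    refine .win (PMv.bot (by decide)) ?_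
    refine done hL hT (fun c hc ho => hno c hc ?_) ?_
    · simpa using ho
    · decide
  intro n
  induction n with
  | zero =>
    intro h _ hn
    have h0 : ∀ c, I.ok c → own c.1 = true → c.1 < h.length := fun c hc _ => by
      have := hc.1
      omega
    exact ⟨fun _ => done hL (by omega) h0 (by decide), fun _ => hdn h (by omega) h0⟩
  | succ n ih =>
    intro h hr hn
    constructor
    · intro hq
      refine .lose fun s' hs' => ?_
      cases hs' with
      | bot h0 => exact absurd h0 (by decide)
      | @top _ _ _ c hc ho hD =>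
        by_cases hs : c.1 = h.length ∧ safe I h c.2
        · have hc' : c = (h.length, c.2) := Prod.ext hs.1 rfl
          have h1 := (ih (h ++ [c.2]) (hr.snoc hs.2)
            (by rw [List.length_append, List.length_singleton]; omega)).2 (by
              rw [List.length_append, List.length_singleton, own_succ, hq]
              rfl)
          have h2 := step_state hs.2 one
          rw [← hc', hq, List.length_append, List.length_singleton, own_succ, hq] at h2
          rw [show (false, items (h ++ [c.2]), one) = ((!true, items (h ++ [c.2]), one) : PS)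
            from rfl, ← h2] at h1
          exact h1
        · exact deviate hL hA (by omega) hq hc ho hD rfl hs
    · intro hq
      rcases hC h hr hq (by omega) with ⟨b, hs⟩ | hno
      · refine .win (PMv.top (c := (h.length, b)) ⟨by show h.length < I.T; omega, hs.1, hs.2.1⟩ hq
          fun hm => ?_) ?_
        · have := (mem_items.mp hm).1
          exact absurd this (by simp)
        · have h1 := (ih (h ++ [b]) (hr.snoc hs)
            (by rw [List.length_append, List.length_singleton]; omega)).1 (by
              rw [List.length_append, List.length_singleton, own_succ, hq]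
              rfl)
          have h2 := step_state hs one
          rw [hq, List.length_append, List.length_singleton, own_succ, hq] at h2
          rw [h2]
          exact h1
      · exact hdn h (by omega) hno

end Pool.Agent.NPC.Q328.PX
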